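import Pool.Agent.Helper52.P2.Arith

/-! # MP_2b6189_al: the numbers below `22680`, and the odd numbers below `165375` -/

set_option autoImplicit false

namespace Pool.Agent.Helper94.P2

open Pool.Agent.Helper52.P2 (split_min)

/-- `n` has exactly one odd prime divisor `p` and at most one other prime divisor `q` -/
def IsTwo (n : ℕ) : Prop :=
  ∃ p q k m : ℕ, p.Prime ∧ p ≠ 2 ∧ q.Prime ∧ 1 ≤ k ∧ n = p ^ k * m ∧ ¬ p ∣ m ∧
      ∀ l : ℕ, l.Prime → l ∣ m → l = q

/-- `n = p ^ 2 m`, with the conditions of `k2` -/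
def IsK2 (n : ℕ) : Prop :=
  ∃ p q r m : ℕ, p.Prime ∧ q.Prime ∧ r.Prime ∧ n = p ^ 2 * m ∧ ¬ p ∣ m ∧ q ≠ p ∧ r ≠ p ∧
      q ≠ r ∧ (∀ l : ℕ, l.Prime → l ∣ m → l = q ∨ l = r) ∧ p < q ^ 2 ∧ p < r ^ 2 ∧
      p ^ 2 + p < 2 * q * r

theorem isK2_mk {p q r b c n : ℕ} (hp : p.Prime) (hq : q.Prime) (hr : r.Prime) (hpq : q ≠ p)
    (hpr : r ≠ p) (hqr : q ≠ r) (hn : n = p ^ 2 * (q ^ b * r ^ c)) (h1 : p < q ^ 2)
    (h2 : p < r ^ 2) (h3 : p ^ 2 + p < 2 * q * r) : IsK2 n := by
  have hrl : ∀ l : ℕ, l.Prime → l ∣ r ^ c → l = r := fun l hl h =>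
    (Nat.prime_dvd_prime_iff_eq hl hr).1 (hl.dvd_of_dvd_pow h)
  have hql : ∀ l : ℕ, l.Prime → l ∣ q ^ b → l = q := fun l hl h =>
    (Nat.prime_dvd_prime_iff_eq hl hq).1 (hl.dvd_of_dvd_pow h)
  refine ⟨p, q, r, q ^ b * r ^ c, hp, hq, hr, hn, ?_, hpq, hpr, hqr, ?_, h1, h2, h3⟩
  · intro h
    rcases (Nat.Prime.dvd_mul hp).1 h with h | h
    · exact hpq (hql p hp h).symm
    · exact hpr (hrl p hp h).symm
  · intro l hl h
    rcases (Nat.Prime.dvd_mul hl).1 h with h | h
    · exact Or.inl (hql l hl h)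
    · exact Or.inr (hrl l hl h)

/-- the shape of a powerful number with fewer than four prime divisors -/
theorem shape (n : ℕ) (h1 : 1 < n) (hex : ∀ p : ℕ, p.Prime → p ∣ n → p * p ∣ n)
    (hB : n < 44100 ∨ (¬ 2 ∣ n ∧ n < 1334025)) :
    (∃ c : ℕ, n = 2 ^ (c + 1)) ∨ IsTwo n ∨
    ∃ p q r a b c : ℕ, p.Prime ∧ q.Prime ∧ r.Prime ∧ p < q ∧ q < r ∧ 2 ≤ a ∧ 2 ≤ b ∧ 2 ≤ c ∧
      n = p ^ a * (q ^ b * r ^ c) := by
  obtain ⟨p, a, m1, hp, ha, hn, hpm, hm1, hlt1, hpw1⟩ := split_min n h1 hex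
  by_cases e1 : m1 = 1
  · subst e1
    by_cases p2 : p = 2
    · left
      refine ⟨a - 1, ?_⟩
      rw [hn, p2, mul_one]
      congr 1
      omega
    · right; left
      refine ⟨p, 2, a, 1, hp, p2, Nat.prime_two, by omega, hn, hpm, fun l hl h => ?_⟩
      exact absurd (Nat.dvd_one.1 h) hl.ne_one
  obtain ⟨q, b, m2, hq, hb, hm1', hqm, hm2, hlt2, hpw2⟩ := split_min m1 (by omega) hpw1
  have hqm1 : q ∣ m1 := by
    rw [hm1']
    exact Dvd.dvd.mul_right (dvd_pow_self q (by omega)) m2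
  have hpq : p < q := hlt1 q hq hqm1
  have hp2 := hp.two_le
  by_cases e2 : m2 = 1
  · subst e2
    right; left
    refine ⟨q, p, b, p ^ a, hq, by omega, hp, by omega, by rw [hn, hm1']; ring, ?_, ?_⟩
    · intro h
      have := (Nat.prime_dvd_prime_iff_eq hq hp).1 (hq.dvd_of_dvd_pow h)
      omega
    · intro l hl h
      exact (Nat.prime_dvd_prime_iff_eq hl hp).1 (hl.dvd_of_dvd_pow h)
  obtain ⟨r, c, m3, hr, hc, hm2', hrm, hm3, hlt3, hpw3⟩ := split_min m2 (by omega) hpw2
  have hrm2 : r ∣ m2 := by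
    rw [hm2']
    exact Dvd.dvd.mul_right (dvd_pow_self r (by omega)) m3
  have hqr : q < r := hlt2 r hr hrm2
  have hpa : p ^ 2 ≤ p ^ a := Nat.pow_le_pow_right hp.pos ha
  have hqb : q ^ 2 ≤ q ^ b := Nat.pow_le_pow_right hq.pos hb
  have hrc : r ^ 2 ≤ r ^ c := Nat.pow_le_pow_right hr.pos hc
  have hn' : n = p ^ a * (q ^ b * (r ^ c * m3)) := by rw [hn, hm1', hm2']
  have q4 : q ≠ 4 := by rintro rfl; exact absurd hq (by norm_num)
  have r4 : r ≠ 4 := by rintro rfl; exact absurd hr (by norm_num)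
  have q6 : q ≠ 6 := by rintro rfl; exact absurd hq (by norm_num)
  have r6 : r ≠ 6 := by rintro rfl; exact absurd hr (by norm_num)
  have e3 : m3 = 1 := by
    by_contra e3
    have hs := Nat.minFac_prime e3
    have h7 : r < Nat.minFac m3 := hlt3 _ hs (Nat.minFac_dvd m3)
    have h8 := Nat.le_of_dvd hm3 (hpw3 _ hs (Nat.minFac_dvd m3))
    set s := Nat.minFac m3 with hsdef
    have s6 : s ≠ 6 := by intro h; rw [h] at hs; exact absurd hs (by norm_num)
    rcases hB with hB | ⟨hodd, hB⟩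
    · have h3 : 2 ^ 2 ≤ p ^ 2 := Nat.pow_le_pow_left (by omega) 2
      have h4 : 3 ^ 2 ≤ q ^ 2 := Nat.pow_le_pow_left (by omega) 2
      have h5 : 5 ^ 2 ≤ r ^ 2 := Nat.pow_le_pow_left (by omega) 2
      have h6 : 49 ≤ m3 := by
        have h9 : 7 * 7 ≤ s * s := Nat.mul_le_mul (by omega) (by omega)
        omega
      have h10 : 2 ^ 2 * (3 ^ 2 * (5 ^ 2 * 49)) ≤ p ^ a * (q ^ b * (r ^ c * m3)) :=
        Nat.mul_le_mul (h3.trans hpa) (Nat.mul_le_mul (h4.trans hqb)
          (Nat.mul_le_mul (h5.trans hrc) h6))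
      rw [← hn'] at h10
      norm_num at h10
      omega
    · have p2 : p ≠ 2 := by
        rintro rfl
        apply hodd
        rw [hn]
        exact Dvd.dvd.mul_right (dvd_pow_self 2 (by omega)) m1
      have s8 : s ≠ 8 := by intro h; rw [h] at hs; exact absurd hs (by norm_num)
      have s9 : s ≠ 9 := by intro h; rw [h] at hs; exact absurd hs (by norm_num)
      have s10 : s ≠ 10 := by intro h; rw [h] at hs; exact absurd hs (by norm_num)
      have h3 : 3 ^ 2 ≤ p ^ 2 := Nat.pow_le_pow_left (by omega) 2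
      have h4 : 5 ^ 2 ≤ q ^ 2 := Nat.pow_le_pow_left (by omega) 2
      have h5 : 7 ^ 2 ≤ r ^ 2 := Nat.pow_le_pow_left (by omega) 2
      have h6 : 121 ≤ m3 := by
        have h9 : 11 * 11 ≤ s * s := Nat.mul_le_mul (by omega) (by omega)
        omega
      have h10 : 3 ^ 2 * (5 ^ 2 * (7 ^ 2 * 121)) ≤ p ^ a * (q ^ b * (r ^ c * m3)) :=
        Nat.mul_le_mul (h3.trans hpa) (Nat.mul_le_mul (h4.trans hqb)
          (Nat.mul_le_mul (h5.trans hrc) h6))
      rw [← hn'] at h10
      norm_num at h10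
      omega
  subst e3
  rw [mul_one] at hn'
  right; right
  exact ⟨p, q, r, a, b, c, hp, hq, hr, hpq, hqr, ha, hb, hc, hn'⟩

/-- the numbers which are left out below `22680` -/
def exc : List ℕ := [5400, 9800, 10584, 10800, 16200, 19600, 21168, 21600]

/-- **The numbers below `22680`**: a prime dividing exactly once, or a power of two, or at most two
prime divisors, or `p ^ 2 m` with the conditions of `k2`, or one of eight numbers. -/
theorem arith22680 (n : ℕ) (h1 : 1 < n) (h2 : n < 22680) (hx : n ∉ exc) :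
    (∃ p : ℕ, p.Prime ∧ p ∣ n ∧ ¬ p * p ∣ n) ∨ (∃ c : ℕ, n = 2 ^ (c + 1)) ∨ IsTwo n ∨ IsK2 n := by
  by_cases hex : ∃ p : ℕ, p.Prime ∧ p ∣ n ∧ ¬ p * p ∣ n
  · exact Or.inl hex
  right
  push Not at hex
  rcases shape n h1 hex (Or.inl (by omega)) with h | h | h
  · exact Or.inl h
  · exact Or.inr (Or.inl h)
  right; right
  obtain ⟨p, q, r, a, b, c, hp, hq, hr, hpq, hqr, ha, hb, hc, hn⟩ := h
  have hpa : p ^ 2 ≤ p ^ a := Nat.pow_le_pow_right hp.pos ha
  have hqb : q ^ 2 ≤ q ^ b := Nat.pow_le_pow_right hq.pos hb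
  have hrc : r ^ 2 ≤ r ^ c := Nat.pow_le_pow_right hr.pos hc
  have hp2 := hp.two_le
  have q4 : q ≠ 4 := by rintro rfl; exact absurd hq (by norm_num)
  have r4 : r ≠ 4 := by rintro rfl; exact absurd hr (by norm_num)
  have q6 : q ≠ 6 := by rintro rfl; exact absurd hq (by norm_num)
  have r6 : r ≠ 6 := by rintro rfl; exact absurd hr (by norm_num)
  have r8 : r ≠ 8 := by rintro rfl; exact absurd hr (by norm_num)
  have r9 : r ≠ 9 := by rintro rfl; exact absurd hr (by norm_num)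
  have r10 : r ≠ 10 := by rintro rfl; exact absurd hr (by norm_num)
  have hlow : ∀ x y z : ℕ, x ≤ p ^ a → y ≤ q ^ b → z ≤ r ^ c → x * (y * z) < 22680 := by
    intro x y z hx hy hz
    have h3 : x * (y * z) ≤ p ^ a * (q ^ b * r ^ c) := Nat.mul_le_mul hx (Nat.mul_le_mul hy hz)
    omega
  have p4 : p ≠ 4 := by rintro rfl; exact absurd hp (by norm_num)
  -- `p ≤ 3`
  have p3 : p ≤ 3 := by
    by_contra h3
    have h7 := hlow (5 ^ 2) (7 ^ 2) (11 ^ 2)
      ((Nat.pow_le_pow_left (show 5 ≤ p by omega) 2).trans hpa)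
      ((Nat.pow_le_pow_left (show 7 ≤ q by omega) 2).trans hqb)
      ((Nat.pow_le_pow_left (show 11 ≤ r by omega) 2).trans hrc)
    norm_num at h7
  have hqr35 : 3 * 5 ≤ q * r := Nat.mul_le_mul (by omega) (by omega)
  have hq3 : 3 ^ 2 ≤ q ^ 2 := Nat.pow_le_pow_left (by omega) 2
  have hr5 : 5 ^ 2 ≤ r ^ 2 := Nat.pow_le_pow_left (by omega) 2
  by_cases a2 : a = 2
  · subst a2
    refine isK2_mk hp hq hr (by omega) (by omega) (by omega) hn (by omega) (by omega) ?_
    have h5 : p ^ 2 ≤ 3 ^ 2 := Nat.pow_le_pow_left p3 2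
    nlinarith
  -- `p = 2`
  have p2 : p = 2 := by
    by_contra h3
    have h7 := hlow (3 ^ 3) (5 ^ 2) (7 ^ 2)
      ((Nat.pow_le_pow_left (show 3 ≤ p by omega) 3).trans
        (Nat.pow_le_pow_right hp.pos (by omega)))
      ((Nat.pow_le_pow_left (show 5 ≤ q by omega) 2).trans hqb)
      ((Nat.pow_le_pow_left (show 7 ≤ r by omega) 2).trans hrc)
    norm_num at h7
  subst p2
  have a3 : 2 ^ 3 ≤ 2 ^ a := Nat.pow_le_pow_right (by norm_num) (by omega)
  have q5 : q ≤ 5 := by
    by_contra h3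
    have h7 := hlow (2 ^ 3) (7 ^ 2) (8 ^ 2) a3
      ((Nat.pow_le_pow_left (show 7 ≤ q by omega) 2).trans hqb)
      ((Nat.pow_le_pow_left (show 8 ≤ r by omega) 2).trans hrc)
    norm_num at h7
  rcases (show q = 3 ∨ q = 5 by omega) with rfl | rfl
  · -- `q = 3`
    by_cases b2 : b = 2
    · subst b2
      exact isK2_mk (b := a) (c := c) hq Nat.prime_two hr (by norm_num) (by omega) (by omega)
        (by rw [hn]; ring) (by norm_num) (by omega) (by omega)
    · exfalso
      have b3 : 3 ^ 3 ≤ 3 ^ b := Nat.pow_le_pow_right (by norm_num) (by omega)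
      have r7 : r ≤ 10 := by
        by_contra h3
        have h7 := hlow (2 ^ 3) (3 ^ 3) (11 ^ 2) a3 b3
          ((Nat.pow_le_pow_left (show 11 ≤ r by omega) 2).trans hrc)
        norm_num at h7
      rcases (show r = 5 ∨ r = 7 by omega) with rfl | rfl
      · have a5 : a ≤ 5 := by
          by_contra h3
          have h7 := hlow (2 ^ 6) (3 ^ 3) (5 ^ 2)
            (Nat.pow_le_pow_right (by norm_num) (by omega)) b3 hrc
          norm_num at h7
        have b4 : b ≤ 4 := by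
          by_contra h3
          have h7 := hlow (2 ^ 3) (3 ^ 5) (5 ^ 2) a3
            (Nat.pow_le_pow_right (by norm_num) (by omega)) hrc
          norm_num at h7
        have c2 : c = 2 := by
          by_contra h3
          have h7 := hlow (2 ^ 3) (3 ^ 3) (5 ^ 3) a3 b3
            (Nat.pow_le_pow_right (by norm_num) (by omega))
          norm_num at h7
        subst c2
        rcases (show b = 3 ∨ b = 4 by omega) with rfl | rfl <;>
          rcases (show a = 3 ∨ a = 4 ∨ a = 5 by omega) with rfl | rfl | rfl <;>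
            norm_num at hn <;> subst hn <;> revert hx h2 <;> decide
      · have a4 : a ≤ 4 := by
          by_contra h3
          have h7 := hlow (2 ^ 5) (3 ^ 3) (7 ^ 2)
            (Nat.pow_le_pow_right (by norm_num) (by omega)) b3 hrc
          norm_num at h7
        have b4 : b = 3 := by
          by_contra h3
          have h7 := hlow (2 ^ 3) (3 ^ 4) (7 ^ 2) a3
            (Nat.pow_le_pow_right (by norm_num) (by omega)) hrc
          norm_num at h7
        have c2 : c = 2 := by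
          by_contra h3
          have h7 := hlow (2 ^ 3) (3 ^ 3) (7 ^ 3) a3 b3
            (Nat.pow_le_pow_right (by norm_num) (by omega))
          norm_num at h7
        subst c2
        subst b4
        rcases (show a = 3 ∨ a = 4 by omega) with rfl | rfl <;>
          norm_num at hn <;> subst hn <;> revert hx h2 <;> decide
  · -- `q = 5`
    exfalso
    have r7 : r ≤ 10 := by
      by_contra h3
      have h7 := hlow (2 ^ 3) (5 ^ 2) (11 ^ 2) a3 hqb
        ((Nat.pow_le_pow_left (show 11 ≤ r by omega) 2).trans hrc)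
      norm_num at h7
    obtain rfl : r = 7 := by omega
    have a4 : a ≤ 4 := by
      by_contra h3
      have h7 := hlow (2 ^ 5) (5 ^ 2) (7 ^ 2)
        (Nat.pow_le_pow_right (by norm_num) (by omega)) hqb hrc
      norm_num at h7
    have b4 : b = 2 := by
      by_contra h3
      have h7 := hlow (2 ^ 3) (5 ^ 3) (7 ^ 2) a3
        (Nat.pow_le_pow_right (by norm_num) (by omega)) hrc
      norm_num at h7
    have c2 : c = 2 := by
      by_contra h3
      have h7 := hlow (2 ^ 3) (5 ^ 2) (7 ^ 3) a3 hqb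
        (Nat.pow_le_pow_right (by norm_num) (by omega))
      norm_num at h7
    subst c2
    subst b4
    rcases (show a = 3 ∨ a = 4 by omega) with rfl | rfl <;>
      norm_num at hn <;> subst hn <;> revert hx h2 <;> decide

/-- **The odd numbers below `165375`**: a prime dividing exactly once, or at most two prime
divisors, or `p ^ 2 m` with the conditions of `k2`. -/
theorem arithOdd (n : ℕ) (h1 : 1 < n) (h2 : n < 165375) (hodd : ¬ 2 ∣ n) :
    (∃ p : ℕ, p.Prime ∧ p ∣ n ∧ ¬ p * p ∣ n) ∨ (∃ c : ℕ, n = 2 ^ (c + 1)) ∨ IsTwo n ∨ IsK2 n := by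
  by_cases hex : ∃ p : ℕ, p.Prime ∧ p ∣ n ∧ ¬ p * p ∣ n
  · exact Or.inl hex
  right
  push Not at hex
  rcases shape n h1 hex (Or.inr ⟨hodd, by omega⟩) with h | h | h
  · exact Or.inl h
  · exact Or.inr (Or.inl h)
  right; right
  obtain ⟨p, q, r, a, b, c, hp, hq, hr, hpq, hqr, ha, hb, hc, hn⟩ := h
  have hpa : p ^ 2 ≤ p ^ a := Nat.pow_le_pow_right hp.pos ha
  have hqb : q ^ 2 ≤ q ^ b := Nat.pow_le_pow_right hq.pos hb
  have hrc : r ^ 2 ≤ r ^ c := Nat.pow_le_pow_right hr.pos hc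
  have hp2 := hp.two_le
  have p2 : p ≠ 2 := by
    rintro rfl
    apply hodd
    rw [hn]
    exact Dvd.dvd.mul_right (dvd_pow_self 2 (by omega)) _
  have p4 : p ≠ 4 := by rintro rfl; exact absurd hp (by norm_num)
  have p6 : p ≠ 6 := by rintro rfl; exact absurd hp (by norm_num)
  have q4 : q ≠ 4 := by rintro rfl; exact absurd hq (by norm_num)
  have q6 : q ≠ 6 := by rintro rfl; exact absurd hq (by norm_num)
  have q8 : q ≠ 8 := by rintro rfl; exact absurd hq (by norm_num)
  have q9 : q ≠ 9 := by rintro rfl; exact absurd hq (by norm_num)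
  have q10 : q ≠ 10 := by rintro rfl; exact absurd hq (by norm_num)
  have r6 : r ≠ 6 := by rintro rfl; exact absurd hr (by norm_num)
  have r8 : r ≠ 8 := by rintro rfl; exact absurd hr (by norm_num)
  have r9 : r ≠ 9 := by rintro rfl; exact absurd hr (by norm_num)
  have r10 : r ≠ 10 := by rintro rfl; exact absurd hr (by norm_num)
  have r12 : r ≠ 12 := by rintro rfl; exact absurd hr (by norm_num)
  have hlow : ∀ x y z : ℕ, x ≤ p ^ a → y ≤ q ^ b → z ≤ r ^ c → x * (y * z) < 165375 := by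
    intro x y z hx hy hz
    have h3 : x * (y * z) ≤ p ^ a * (q ^ b * r ^ c) := Nat.mul_le_mul hx (Nat.mul_le_mul hy hz)
    omega
  -- `p ≤ 5`
  have p5 : p ≤ 5 := by
    by_contra h3
    have h7 := hlow (7 ^ 2) (8 ^ 2) (9 ^ 2)
      ((Nat.pow_le_pow_left (show 7 ≤ p by omega) 2).trans hpa)
      ((Nat.pow_le_pow_left (show 8 ≤ q by omega) 2).trans hqb)
      ((Nat.pow_le_pow_left (show 9 ≤ r by omega) 2).trans hrc)
    norm_num at h7
  have hqr35 : 5 * 7 ≤ q * r := Nat.mul_le_mul (by omega) (by omega)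
  have hq5 : 5 ^ 2 ≤ q ^ 2 := Nat.pow_le_pow_left (by omega) 2
  have hr7 : 7 ^ 2 ≤ r ^ 2 := Nat.pow_le_pow_left (by omega) 2
  by_cases a2 : a = 2
  · subst a2
    refine isK2_mk hp hq hr (by omega) (by omega) (by omega) hn (by omega) (by omega) ?_
    have h5 : p ^ 2 ≤ 5 ^ 2 := Nat.pow_le_pow_left p5 2
    nlinarith
  -- `p = 3`
  have p3 : p = 3 := by
    by_contra h3
    have h7 := hlow (5 ^ 3) (7 ^ 2) (11 ^ 2)
      ((Nat.pow_le_pow_left (show 5 ≤ p by omega) 3).trans
        (Nat.pow_le_pow_right hp.pos (by omega)))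
      ((Nat.pow_le_pow_left (show 7 ≤ q by omega) 2).trans hqb)
      ((Nat.pow_le_pow_left (show 11 ≤ r by omega) 2).trans hrc)
    norm_num at h7
  subst p3
  have a3 : 3 ^ 3 ≤ 3 ^ a := Nat.pow_le_pow_right (by norm_num) (by omega)
  have q7 : q ≤ 7 := by
    by_contra h3
    have h7 := hlow (3 ^ 3) (11 ^ 2) (12 ^ 2) a3
      ((Nat.pow_le_pow_left (show 11 ≤ q by omega) 2).trans hqb)
      ((Nat.pow_le_pow_left (show 12 ≤ r by omega) 2).trans hrc)
    norm_num at h7
  rcases (show q = 5 ∨ q = 7 by omega) with rfl | rfl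
  · -- `q = 5`
    by_cases b2 : b = 2
    · subst b2
      exact isK2_mk (b := a) (c := c) hq Nat.prime_three hr (by norm_num) (by omega) (by omega)
        (by rw [hn]; ring) (by norm_num) (by omega) (by omega)
    · exfalso
      have h7 := hlow (3 ^ 3) (5 ^ 3) (7 ^ 2) a3 (Nat.pow_le_pow_right (by norm_num) (by omega))
        (hr7.trans hrc)
      norm_num at h7
  · -- `q = 7`
    have b2 : b = 2 := by
      by_contra h3
      have h7 := hlow (3 ^ 3) (7 ^ 3) (11 ^ 2) a3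
        (Nat.pow_le_pow_right (by norm_num) (by omega))
        ((Nat.pow_le_pow_left (show 11 ≤ r by omega) 2).trans hrc)
      norm_num at h7
    subst b2
    have hr121 : 11 ^ 2 ≤ r ^ 2 := Nat.pow_le_pow_left (by omega) 2
    exact isK2_mk (b := a) (c := c) hq Nat.prime_three hr (by norm_num) (by omega) (by omega)
      (by rw [hn]; ring) (by norm_num) (by omega) (by omega)

end Pool.Agent.Helper94.P2
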