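import Pool.Agent.Helper79.P2.Small2
import Pool.Agent.Helper89.P2.K25E

/-! # MP_2b6189_al: all dimensions below `22680`, given the case `49 2^b 3^c` -/

set_option autoImplicit false

namespace Pool.Agent.Helper94.P2

open Pool.Agent.Helper94.YF Pool.Agent.Helper94.YG
open Pool.Agent.Helper89.OC (TanSet)

variable {I : Type} [Fintype I] [DecidableEq I]

theorem k25_mk (Z : CentreData I) (r b c : ℕ) (hr : r.Prime) (hr5 : r ≠ 5)
    (hn : Z.n = 25 * (2 ^ b * r ^ c)) : ∃ D : I → Prop, TanSet Z D := by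
  have h5 : Nat.Prime 5 := by norm_num
  refine Pool.Agent.Helper89.P2.k25b Z (2 ^ b * r ^ c) r hr hn ?_ ?_
  · intro h
    rcases (Nat.Prime.dvd_mul h5).1 h with h | h
    · exact absurd (h5.dvd_of_dvd_pow h) (by norm_num)
    · exact hr5 ((Nat.prime_dvd_prime_iff_eq h5 hr).1 (h5.dvd_of_dvd_pow h)).symm
  · intro l hl h
    rcases (Nat.Prime.dvd_mul hl).1 h with h | h
    · exact Or.inl ((Nat.prime_dvd_prime_iff_eq hl Nat.prime_two).1 (hl.dvd_of_dvd_pow h))
    · exact Or.inr ((Nat.prime_dvd_prime_iff_eq hl hr).1 (hl.dvd_of_dvd_pow h))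

/-- **Theorem.**  All dimensions `1 < n < 22680` except `10584` and `21168`. -/
theorem below2 (Z : CentreData I) (h1 : 1 < Z.n) (h2 : Z.n < 22680) (h3 : Z.n ≠ 10584)
    (h4 : Z.n ≠ 21168) : ∃ D : I → Prop, TanSet Z D := by
  have h3' : Nat.Prime 3 := by norm_num
  have h7 : Nat.Prime 7 := by norm_num
  by_cases e1 : Z.n = 5400
  · exact k25_mk Z 3 3 3 h3' (by norm_num) (by rw [e1]; norm_num)
  by_cases e2 : Z.n = 9800
  · exact k25_mk Z 7 3 2 h7 (by norm_num) (by rw [e2]; norm_num)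
  by_cases e3 : Z.n = 10800
  · exact k25_mk Z 3 4 3 h3' (by norm_num) (by rw [e3]; norm_num)
  by_cases e4 : Z.n = 16200
  · exact k25_mk Z 3 3 4 h3' (by norm_num) (by rw [e4]; norm_num)
  by_cases e5 : Z.n = 19600
  · exact k25_mk Z 7 4 2 h7 (by norm_num) (by rw [e5]; norm_num)
  by_cases e6 : Z.n = 21600
  · exact k25_mk Z 3 5 3 h3' (by norm_num) (by rw [e6]; norm_num)
  refine Pool.Agent.Helper79.P2.below22680 Z h1 h2 ?_
  simp only [List.mem_cons, List.not_mem_nil, or_false, not_or]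
  exact ⟨e1, e2, h3, e3, e4, e5, h4, e6⟩

/-- **Theorem.**  All dimensions `1 < n < 22680`, given the case `49 2^b 3^c`. -/
theorem below3 (Z : CentreData I) (h1 : 1 < Z.n) (h2 : Z.n < 22680)
    (h49 : ∀ m : ℕ, Z.n = 49 * m → ¬ 7 ∣ m → (∀ l : ℕ, l.Prime → l ∣ m → l = 2 ∨ l = 3) →
      ∃ D : I → Prop, TanSet Z D) : ∃ D : I → Prop, TanSet Z D := by
  have h3' : Nat.Prime 3 := by norm_num
  have h7 : Nat.Prime 7 := by norm_num
  have key : ∀ a : ℕ, Z.n = 49 * (2 ^ a * 3 ^ 3) → ∃ D : I → Prop, TanSet Z D := by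
    intro a ha
    refine h49 _ ha ?_ ?_
    · intro h
      rcases (Nat.Prime.dvd_mul h7).1 h with h | h
      · exact absurd (h7.dvd_of_dvd_pow h) (by norm_num)
      · exact absurd (h7.dvd_of_dvd_pow h) (by norm_num)
    · intro l hl h
      rcases (Nat.Prime.dvd_mul hl).1 h with h | h
      · exact Or.inl ((Nat.prime_dvd_prime_iff_eq hl Nat.prime_two).1 (hl.dvd_of_dvd_pow h))
      · exact Or.inr ((Nat.prime_dvd_prime_iff_eq hl h3').1 (hl.dvd_of_dvd_pow h))
  by_cases e1 : Z.n = 10584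
  · exact key 3 (by rw [e1]; norm_num)
  by_cases e2 : Z.n = 21168
  · exact key 4 (by rw [e2]; norm_num)
  exact below2 Z h1 h2 e1 e2

end Pool.Agent.Helper94.P2
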