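import Pool.Agent.Helper94.P2.OddProg

/-! # MP_2b6189_al: odd dimensions below `408375`, the search for `p = 11`, part 2 -/

set_option autoImplicit false
set_option maxRecDepth 100000

namespace Pool.Agent.Helper94.P2.OD

theorem v4500 : okI 11 [5] 192 96 129 4500 1500 = true := by decide +kernel
theorem v6000 : okI 11 [5] 192 96 129 6000 1500 = true := by decide +kernel
theorem v7500 : okI 11 [5] 192 96 129 7500 1500 = true := by decide +kernel

end Pool.Agent.Helper94.P2.OD
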