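import Pool.Agent.Helper94.P2.OddProg

/-! # MP_2b6189_al: odd dimensions below `408375`, the search for `p ≥ 19` -/

set_option autoImplicit false
set_option maxRecDepth 100000

namespace Pool.Agent.Helper94.P2.OD

theorem w19 : okI 19 [9] 146 73 27 0 10747 = true := by decide +kernel
theorem w23 : okI 23 [11] 133 67 15 0 8878 = true := by decide +kernel
theorem w29 : okI 29 [7] 118 59 8 0 7041 = true := by decide +kernel

end Pool.Agent.Helper94.P2.OD
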