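import Pool.Agent.Helper94.P2.OddProg

/-! # MP_2b6189_al: odd dimensions below `408375`, the search for `p ≥ 31` -/

set_option autoImplicit false
set_option maxRecDepth 100000

namespace Pool.Agent.Helper94.P2.OD

theorem w31 : okI 31 [5, 15] 114 57 6 0 6587 = true := by decide +kernel
theorem w37 : okI 37 [9] 105 53 4 0 5519 = true := by decide +kernel
theorem w41 : okI 41 [5] 99 50 3 0 4980 = true := by decide +kernel
theorem w43 : okI 43 [7, 21] 97 49 2 0 4749 = true := by decide +kernel
theorem w47 : okI 47 [23] 93 47 2 0 4344 = true := by decide +kernel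
theorem w53 : okI 53 [13] 87 44 1 0 3853 = true := by decide +kernel
theorem w59 : okI 59 [29] 83 42 1 0 3461 = true := by decide +kernel
theorem w61 : okI 61 [5, 15] 81 41 1 0 3347 = true := by decide +kernel
theorem w67 : okI 67 [11, 33] 78 39 1 0 3048 = true := by decide +kernel
theorem w71 : okI 71 [5, 7, 35] 75 38 1 0 2876 = true := by decide +kernel
theorem w73 : okI 73 [9] 74 37 1 0 2797 = true := by decide +kernel

end Pool.Agent.Helper94.P2.OD
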