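import Pool.Agent.Helper94.P2.Odd2A
import Pool.Agent.Helper94.P2.Odd2B
import Pool.Agent.Helper94.P2.Odd2C
import Pool.Agent.Helper94.P2.Odd2D
import Pool.Agent.Helper94.P2.Odd2E
import Pool.Agent.Helper94.P2.Odd2F
import Pool.Agent.Helper94.P2.Odd2G

/-! # MP_2b6189_al: no ghost primes below `408375`, odd dimension -/

set_option autoImplicit false

namespace Pool.Agent.Helper94.P2.OD

theorem one_prime2 (p : ℕ) (Ns : List ℕ) (s K C L m : ℕ) (hp : p.Prime)
    (hNs : ∀ N, N < p → N ∣ p - 1 → N % 2 = 1 → 5 ≤ N → Ns.contains N = true)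
    (hs : 408375 ≤ p * (s + 1) ^ 2) (hK : s ≤ 2 * K)
    (hC : 408375 ≤ p * ((2 * C + 1) * ((p + 1) ^ 2))) (hL : 408375 ≤ p * (2 * L + 1))
    (h : ∀ j, j < L → ¬ p ∣ 2 * j + 1 → tA p Ns s K (2 * j + 1) C = true)
    (hm : ¬ 2 ∣ m) (hpm : ¬ p ∣ m) (hb : p * m < 408375) : ¬ GhoOdd p m := by
  obtain ⟨j, hj⟩ : ∃ j, m = 2 * j + 1 := by
    rcases Nat.even_or_odd' m with ⟨j, h | h⟩
    · exact absurd (Dvd.intro j h.symm) hm
    · exact ⟨j, h⟩
  refine tA_sound p Ns s K C m hp hm ?_ ?_ hK ?_ ?_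
  · intro N h1 h2 h3
    rw [← List.contains_iff_mem]
    refine hNs N ?_ h1 (Nat.odd_iff.1 h2) h3
    have := Nat.le_of_dvd (by have := hp.two_le; omega) h1
    have := hp.two_le
    omega
  · exact lt_of_mul_lt_mul_left (hb.trans_le hs) (Nat.zero_le p)
  · exact lt_of_mul_lt_mul_left (hb.trans_le hC) (Nat.zero_le p)
  · rw [hj]
    refine h j ?_ (by rw [← hj]; exact hpm)
    have : m < 2 * L + 1 := lt_of_mul_lt_mul_left (hb.trans_le hL) (Nat.zero_le p)
    omega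

theorem no_N2 (p m : ℕ) (h : ∀ N, N < p → N ∣ p - 1 → N % 2 = 1 → 5 ≤ N → False) (hp : 1 < p) :
    ¬ GhoOdd p m := by
  rintro ⟨N, A, h1, h2, h3, -⟩
  have := Nat.le_of_dvd (by omega) h3
  exact h N (by omega) h3 (Nat.odd_iff.1 h1) h2

theorem z11 (m : ℕ) (hm : ¬ 2 ∣ m) (hpm : ¬ 11 ∣ m) (hb : 11 * m < 408375) : ¬ GhoOdd 11 m :=
  one_prime2 11 [5] 192 96 129 18562 m (by norm_num) (by decide) (by norm_num) (by norm_num)
    (by norm_num) (by norm_num) (fun j hj h => by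
      rcases Nat.lt_or_ge j 1500 with h1 | h1
      · exact okI_spec _ _ _ _ _ 0 1500 j v0 (by omega) (by omega) h
      rcases Nat.lt_or_ge j 3000 with h1 | h1
      · exact okI_spec _ _ _ _ _ 1500 1500 j v1500 (by omega) (by omega) h
      rcases Nat.lt_or_ge j 4500 with h1 | h1
      · exact okI_spec _ _ _ _ _ 3000 1500 j v3000 (by omega) (by omega) h
      rcases Nat.lt_or_ge j 6000 with h1 | h1
      · exact okI_spec _ _ _ _ _ 4500 1500 j v4500 (by omega) (by omega) h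
      rcases Nat.lt_or_ge j 7500 with h1 | h1
      · exact okI_spec _ _ _ _ _ 6000 1500 j v6000 (by omega) (by omega) h
      rcases Nat.lt_or_ge j 9000 with h1 | h1
      · exact okI_spec _ _ _ _ _ 7500 1500 j v7500 (by omega) (by omega) h
      rcases Nat.lt_or_ge j 10500 with h1 | h1
      · exact okI_spec _ _ _ _ _ 9000 1500 j v9000 (by omega) (by omega) h
      rcases Nat.lt_or_ge j 12000 with h1 | h1
      · exact okI_spec _ _ _ _ _ 10500 1500 j v10500 (by omega) (by omega) h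
      rcases Nat.lt_or_ge j 13500 with h1 | h1
      · exact okI_spec _ _ _ _ _ 12000 1500 j v12000 (by omega) (by omega) h
      rcases Nat.lt_or_ge j 15000 with h1 | h1
      · exact okI_spec _ _ _ _ _ 13500 1500 j v13500 (by omega) (by omega) h
      rcases Nat.lt_or_ge j 16500 with h1 | h1
      · exact okI_spec _ _ _ _ _ 15000 1500 j v15000 (by omega) (by omega) h
      rcases Nat.lt_or_ge j 18000 with h1 | h1
      · exact okI_spec _ _ _ _ _ 16500 1500 j v16500 (by omega) (by omega) h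
      exact okI_spec _ _ _ _ _ 18000 562 j v18000 (by omega) (by omega) h) hm hpm hb

theorem z19 (m : ℕ) (hm : ¬ 2 ∣ m) (hpm : ¬ 19 ∣ m) (hb : 19 * m < 408375) : ¬ GhoOdd 19 m :=
  one_prime2 19 [9] 146 73 27 10747 m (by norm_num) (by decide) (by norm_num) (by norm_num)
    (by norm_num) (by norm_num)
    (fun j hj h => okI_spec _ _ _ _ _ 0 10747 j w19 (by omega) (by omega) h) hm hpm hb

theorem z23 (m : ℕ) (hm : ¬ 2 ∣ m) (hpm : ¬ 23 ∣ m) (hb : 23 * m < 408375) : ¬ GhoOdd 23 m :=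
  one_prime2 23 [11] 133 67 15 8878 m (by norm_num) (by decide) (by norm_num) (by norm_num)
    (by norm_num) (by norm_num)
    (fun j hj h => okI_spec _ _ _ _ _ 0 8878 j w23 (by omega) (by omega) h) hm hpm hb

theorem z29 (m : ℕ) (hm : ¬ 2 ∣ m) (hpm : ¬ 29 ∣ m) (hb : 29 * m < 408375) : ¬ GhoOdd 29 m :=
  one_prime2 29 [7] 118 59 8 7041 m (by norm_num) (by decide) (by norm_num) (by norm_num)
    (by norm_num) (by norm_num)
    (fun j hj h => okI_spec _ _ _ _ _ 0 7041 j w29 (by omega) (by omega) h) hm hpm hb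

theorem z31 (m : ℕ) (hm : ¬ 2 ∣ m) (hpm : ¬ 31 ∣ m) (hb : 31 * m < 408375) : ¬ GhoOdd 31 m :=
  one_prime2 31 [5, 15] 114 57 6 6587 m (by norm_num) (by decide) (by norm_num) (by norm_num)
    (by norm_num) (by norm_num)
    (fun j hj h => okI_spec _ _ _ _ _ 0 6587 j w31 (by omega) (by omega) h) hm hpm hb

theorem z37 (m : ℕ) (hm : ¬ 2 ∣ m) (hpm : ¬ 37 ∣ m) (hb : 37 * m < 408375) : ¬ GhoOdd 37 m :=
  one_prime2 37 [9] 105 53 4 5519 m (by norm_num) (by decide) (by norm_num) (by norm_num)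
    (by norm_num) (by norm_num)
    (fun j hj h => okI_spec _ _ _ _ _ 0 5519 j w37 (by omega) (by omega) h) hm hpm hb

theorem z41 (m : ℕ) (hm : ¬ 2 ∣ m) (hpm : ¬ 41 ∣ m) (hb : 41 * m < 408375) : ¬ GhoOdd 41 m :=
  one_prime2 41 [5] 99 50 3 4980 m (by norm_num) (by decide) (by norm_num) (by norm_num)
    (by norm_num) (by norm_num)
    (fun j hj h => okI_spec _ _ _ _ _ 0 4980 j w41 (by omega) (by omega) h) hm hpm hb

theorem z43 (m : ℕ) (hm : ¬ 2 ∣ m) (hpm : ¬ 43 ∣ m) (hb : 43 * m < 408375) : ¬ GhoOdd 43 m :=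
  one_prime2 43 [7, 21] 97 49 2 4749 m (by norm_num) (by decide) (by norm_num) (by norm_num)
    (by norm_num) (by norm_num)
    (fun j hj h => okI_spec _ _ _ _ _ 0 4749 j w43 (by omega) (by omega) h) hm hpm hb

theorem z47 (m : ℕ) (hm : ¬ 2 ∣ m) (hpm : ¬ 47 ∣ m) (hb : 47 * m < 408375) : ¬ GhoOdd 47 m :=
  one_prime2 47 [23] 93 47 2 4344 m (by norm_num) (by decide) (by norm_num) (by norm_num)
    (by norm_num) (by norm_num)
    (fun j hj h => okI_spec _ _ _ _ _ 0 4344 j w47 (by omega) (by omega) h) hm hpm hb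

theorem z53 (m : ℕ) (hm : ¬ 2 ∣ m) (hpm : ¬ 53 ∣ m) (hb : 53 * m < 408375) : ¬ GhoOdd 53 m :=
  one_prime2 53 [13] 87 44 1 3853 m (by norm_num) (by decide) (by norm_num) (by norm_num)
    (by norm_num) (by norm_num)
    (fun j hj h => okI_spec _ _ _ _ _ 0 3853 j w53 (by omega) (by omega) h) hm hpm hb

theorem z59 (m : ℕ) (hm : ¬ 2 ∣ m) (hpm : ¬ 59 ∣ m) (hb : 59 * m < 408375) : ¬ GhoOdd 59 m :=
  one_prime2 59 [29] 83 42 1 3461 m (by norm_num) (by decide) (by norm_num) (by norm_num)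
    (by norm_num) (by norm_num)
    (fun j hj h => okI_spec _ _ _ _ _ 0 3461 j w59 (by omega) (by omega) h) hm hpm hb

theorem z61 (m : ℕ) (hm : ¬ 2 ∣ m) (hpm : ¬ 61 ∣ m) (hb : 61 * m < 408375) : ¬ GhoOdd 61 m :=
  one_prime2 61 [5, 15] 81 41 1 3347 m (by norm_num) (by decide) (by norm_num) (by norm_num)
    (by norm_num) (by norm_num)
    (fun j hj h => okI_spec _ _ _ _ _ 0 3347 j w61 (by omega) (by omega) h) hm hpm hb

theorem z67 (m : ℕ) (hm : ¬ 2 ∣ m) (hpm : ¬ 67 ∣ m) (hb : 67 * m < 408375) : ¬ GhoOdd 67 m :=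
  one_prime2 67 [11, 33] 78 39 1 3048 m (by norm_num) (by decide) (by norm_num) (by norm_num)
    (by norm_num) (by norm_num)
    (fun j hj h => okI_spec _ _ _ _ _ 0 3048 j w67 (by omega) (by omega) h) hm hpm hb

theorem z71 (m : ℕ) (hm : ¬ 2 ∣ m) (hpm : ¬ 71 ∣ m) (hb : 71 * m < 408375) : ¬ GhoOdd 71 m :=
  one_prime2 71 [5, 7, 35] 75 38 1 2876 m (by norm_num) (by decide) (by norm_num) (by norm_num)
    (by norm_num) (by norm_num)
    (fun j hj h => okI_spec _ _ _ _ _ 0 2876 j w71 (by omega) (by omega) h) hm hpm hb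

theorem z73 (m : ℕ) (hm : ¬ 2 ∣ m) (hpm : ¬ 73 ∣ m) (hb : 73 * m < 408375) : ¬ GhoOdd 73 m :=
  one_prime2 73 [9] 74 37 1 2797 m (by norm_num) (by decide) (by norm_num) (by norm_num)
    (by norm_num) (by norm_num)
    (fun j hj h => okI_spec _ _ _ _ _ 0 2797 j w73 (by omega) (by omega) h) hm hpm hb

/-- **No ghost primes below `408375`**, odd dimension. -/
theorem smallOdd2 (p m : ℕ) (hp : p.Prime) (hm : ¬ 2 ∣ m) (hpm : ¬ p ∣ m)
    (hb : p * m < 408375) : ¬ GhoOdd p m := by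
  intro hG
  have h74 : p < 74 := by
    obtain ⟨N, A, -, -, -, hAm, hA, -⟩ := hG
    by_contra h
    have hm0 : 0 < m := by
      rcases Nat.eq_zero_or_pos m with rfl | h
      · exact absurd (dvd_zero 2) hm
      · exact h
    have h1 := Nat.le_of_dvd hm0 hAm
    have h2 : 75 ^ 2 ≤ (p + 1) ^ 2 := Nat.pow_le_pow_left (by omega) 2
    have h3 : 74 * 75 ^ 2 ≤ p * m := Nat.mul_le_mul (by omega) (by omega)
    norm_num at h3
    omega
  revert hG
  have hp1 := hp.one_lt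
  interval_cases p
  all_goals first
    | (exfalso; revert hp; norm_num; done)
    | exact no_N2 _ m (by decide) (by norm_num)
    | exact z11 m hm hpm hb
    | exact z19 m hm hpm hb
    | exact z23 m hm hpm hb
    | exact z29 m hm hpm hb
    | exact z31 m hm hpm hb
    | exact z37 m hm hpm hb
    | exact z41 m hm hpm hb
    | exact z43 m hm hpm hb
    | exact z47 m hm hpm hb
    | exact z53 m hm hpm hb
    | exact z59 m hm hpm hb
    | exact z61 m hm hpm hb
    | exact z67 m hm hpm hb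
    | exact z71 m hm hpm hb
    | exact z73 m hm hpm hb

end Pool.Agent.Helper94.P2.OD
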