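import Pool.Agent.Helper94.P2.Iso

/-!
# MP_2b6189_al, prime powers: the structure of the principal block
-/

set_option autoImplicit false

namespace Pool.Agent.Helper94.P2

open Matrix ComplexConjugate Pool.Agent.Helper94.YF Pool.Agent.Helper94.YG
open Pool.Agent.Helper89.P2
open Pool.Agent.Helper89.OS (PI)

private lemma dvdP {p : ℕ} {Q : ℂ → Prop} (hQ : PI p Q) (hp : p.Prime) (S : ℂ)
    (hS : IsIntegral ℤ S) (hnS : ¬ Q S) (e : ℕ) : ∀ E : ℤ,
    IsIntegral ℤ (S * (E : ℂ) / (p : ℂ) ^ e) → ((p : ℤ) ^ e) ∣ E := by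
  induction e with
  | zero => intro E _; simp
  | succ e ih =>
    intro E h
    have hp0 : (p : ℂ) ≠ 0 := by exact_mod_cast hp.ne_zero
    have hpi : IsIntegral ℤ (p : ℂ) := by
      have : IsIntegral ℤ (algebraMap ℤ ℂ (p : ℤ)) := isIntegral_algebraMap
      simpa using this
    have hQp : Q ((p : ℤ) : ℂ) := (hQ.int_iff p).2 (dvd_refl _)
    obtain ⟨T, hT⟩ : ∃ T : ℂ, T = S * (E : ℂ) / (p : ℂ) ^ (e + 1) := ⟨_, rfl⟩
    rw [← hT] at h
    have hEi : ∀ k : ℤ, IsIntegral ℤ (k : ℂ) := fun k => by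
      have : IsIntegral ℤ (algebraMap ℤ ℂ k) := isIntegral_algebraMap
      simpa using this
    have h1 : S * (E : ℂ) = (T * (p : ℂ) ^ e) * ((p : ℤ) : ℂ) := by
      rw [hT]
      push_cast
      field_simp
      ring
    have h2 : Q (S * (E : ℂ)) := by
      rw [h1]
      exact hQ.mul _ _ (h.mul (hpi.pow e)) hQp
    have h3 : (p : ℤ) ∣ E := by
      rcases hQ.prime _ _ hS (hEi E) h2 with h | h
      · exact absurd h hnS
      · exact (hQ.int_iff E).1 h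
    obtain ⟨E', rfl⟩ := h3
    have h4 : S * (E' : ℂ) / (p : ℂ) ^ e = T := by
      rw [hT]
      push_cast
      field_simp
      ring
    have h5 := ih E' (by rw [h4]; exact h)
    rw [pow_succ, mul_comm]
    exact mul_dvd_mul_left _ h5

section

variable {I : Type} [Fintype I] [DecidableEq I] {p a P : ℕ}

theorem P_pos (X : PK I p a P) : 0 < P := by
  rw [X.P_eq]
  exact pow_pos X.prime.pos _

theorem so (X : PK I p a P) (k : I) : X.s X.o k = X.y k := by rw [X.s_symm, X.s_o]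

theorem norm_col (X : PK I p a P) (i : I) : ∑ k, ‖X.s k i‖ ^ 2 = (P : ℝ) ^ 2 := by
  have h1 := X.s_uni i i
  rw [if_pos rfl] at h1
  have h2 : ∀ k, X.s i k * conj (X.s i k) = ((‖X.s k i‖ ^ 2 : ℝ) : ℂ) := by
    intro k
    rw [Complex.mul_conj, X.s_symm i k, Complex.normSq_eq_norm_sq]
  rw [Finset.sum_congr rfl (fun k _ => h2 k), ← Complex.ofReal_sum] at h1
  exact_mod_cast h1

theorem norm_row (X : PK I p a P) (j : I) : ∑ i, ‖X.s j i‖ ^ 2 = (P : ℝ) ^ 2 := by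
  rw [← norm_col X j]
  refine Finset.sum_congr rfl fun i _ => ?_
  rw [X.s_symm]

theorem mem_B0 (X : PK I p a P) (Q : ℂ → Prop) (j : I) :
    j ∈ B0 X Q ↔ ∀ k, Q (X.chi j k - X.d k) := by
  unfold B0
  simp

theorem o_mem (X : PK I p a P) (Q : ℂ → Prop) (hQ : PI p Q) : X.o ∈ B0 X Q := by
  rw [mem_B0]
  intro k
  rw [X.o_chi, sub_self]
  exact hQ.zero

/-- Congruences in the principal block. -/
theorem cgr (X : PK I p a P) (Q : ℂ → Prop) (hQ : PI p Q) (j : I) (hj : j ∈ B0 X Q) :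
    ∃ w : I → ℂ, (∀ i, Q (w i)) ∧ ∀ i,
      (X.m : ℂ) ^ 2 * X.s j i = (X.d j : ℂ) * ((X.m : ℂ) ^ 2 * X.y i + w i) := by
  rw [mem_B0] at hj
  obtain ⟨w, hw1, hw2⟩ := X.con
  refine ⟨fun i => (∑ k, w i k * X.chi j k) - ∑ k, w i k * X.d k, ?_, ?_⟩
  · intro i
    show Q ((∑ k, w i k * X.chi j k) - ∑ k, w i k * X.d k)
    rw [← Finset.sum_sub_distrib]
    apply Finset.sum_induction _ Q hQ.add hQ.zero
    intro k _
    rw [← mul_sub]
    exact hQ.mul _ _ (hw1 i k) (hj k)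
  · intro i
    have h := hw2 i X.o
    rw [so, X.d_o] at h
    have h1 : (X.m : ℂ) ^ 2 * X.y i = ∑ k, w i k * X.d k := by
      rw [h]
      simp [X.o_chi]
    rw [h1, hw2 i j]
    ring

/-- The masses of the columns on the principal block. -/
theorem mass (hRAT : StRAT) (X : PK I p a P) (Q : ℂ → Prop) (hQ : PI p Q) (i : I) :
    (∑ j ∈ B0 X Q, ‖X.s j i‖ ^ 2 = 0) ∨ (∑ j ∈ B0 X Q, ‖X.s j i‖ ^ 2 = (P : ℝ) ^ 2) := by
  have hPk : (P : ℂ) = (p : ℂ) ^ X.k := by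
    have := X.P_eq
    exact_mod_cast congrArg (fun n : ℕ => (n : ℂ)) this
  have hPk' : (P : ℤ) = (p : ℤ) ^ X.k := by
    have := X.P_eq
    exact_mod_cast congrArg (fun n : ℕ => (n : ℤ)) this
  have hBpi : ∀ c j, j ∈ B0 X Q → X.pi c j ∈ B0 X Q := by
    intro c j hj
    rw [mem_B0] at hj ⊢
    intro k
    rw [X.pi_chi]
    have h1 := hj (X.pi c k)
    rwa [X.pi_d] at h1
  obtain ⟨S, hS, hnS, hI⟩ := hISO X Q hQ i i
  obtain ⟨E, hE⟩ : ∃ E : ℂ, E = ∑ j ∈ B0 X Q, conj (X.s j i) * X.s j i := ⟨_, rfl⟩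
  have hci : ∀ u v, IsIntegral ℤ (conj (X.s u v)) := fun u v => by
    rw [X.conj_s]; exact X.s_int _ _
  obtain ⟨m, hm⟩ : ∃ m : ℤ, (m : ℂ) = E := by
    refine hRAT.1 E ?_ ?_
    · rw [hE]
      exact IsIntegral.sum _ (fun j _ => (hci _ _).mul (X.s_int _ _))
    · intro σ
      obtain ⟨c, hc⟩ := X.gal σ
      have hgi : ∀ k, σ (conj (X.s k i) * X.s k i) =
          conj (X.s (X.pi c k) i) * X.s (X.pi c k) i := by
        intro k
        rw [map_mul, X.s_symm k i, X.conj_s, hc, hc, ← X.pi_mul, mul_comm c, X.pi_mul,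
          ← X.conj_s, X.s_symm (X.pi c k) i]
      rw [hE, map_sum, Finset.sum_congr rfl (fun k _ => hgi k)]
      refine Finset.sum_nbij' (X.pi c) (X.pi c⁻¹) ?_ ?_ ?_ ?_ ?_
      · intro k hk
        exact hBpi c k hk
      · intro k hk
        exact hBpi c⁻¹ k hk
      · intro k _
        rw [← X.pi_mul, inv_mul_cancel, X.pi_one]
      · intro k _
        rw [← X.pi_mul, mul_inv_cancel, X.pi_one]
      · intro k _
        rfl
  have hreal : (m : ℝ) = ∑ j ∈ B0 X Q, ‖X.s j i‖ ^ 2 := by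
    have h1 : ∀ k, conj (X.s k i) * X.s k i = ((‖X.s k i‖ ^ 2 : ℝ) : ℂ) := by
      intro k
      rw [mul_comm, Complex.mul_conj, Complex.normSq_eq_norm_sq]
    have h2 : ((m : ℝ) : ℂ) = ((∑ j ∈ B0 X Q, ‖X.s j i‖ ^ 2 : ℝ) : ℂ) := by
      rw [Complex.ofReal_intCast, hm, hE, Finset.sum_congr rfl (fun k _ => h1 k),
        ← Complex.ofReal_sum]
    exact_mod_cast h2
  rw [← hE, ← hm, hPk, ← pow_mul] at hI
  have h2 : (P : ℤ) ^ 2 ∣ m := by
    rw [hPk', ← pow_mul]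
    exact dvdP hQ X.prime S hS hnS _ m hI
  have h4 : ∑ j ∈ B0 X Q, ‖X.s j i‖ ^ 2 + ∑ j ∈ (B0 X Q)ᶜ, ‖X.s j i‖ ^ 2 = (P : ℝ) ^ 2 := by
    rw [Finset.sum_add_sum_compl, norm_col]
  have h5 : 0 ≤ ∑ j ∈ (B0 X Q)ᶜ, ‖X.s j i‖ ^ 2 := Finset.sum_nonneg (fun _ _ => sq_nonneg _)
  have h6 : m ≤ (P : ℤ) ^ 2 := by
    have : (m : ℝ) ≤ (P : ℝ) ^ 2 := by rw [hreal]; linarith
    exact_mod_cast this
  have h7 : 0 ≤ ∑ j ∈ B0 X Q, ‖X.s j i‖ ^ 2 := Finset.sum_nonneg (fun _ _ => sq_nonneg _)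
  have h8 : 0 ≤ m := by
    have : (0 : ℝ) ≤ m := by rw [hreal]; exact h7
    exact_mod_cast this
  rcases h8.eq_or_lt with h9 | h9
  · left
    rw [← hreal, ← h9]
    simp
  · right
    have h10 : m = (P : ℤ) ^ 2 := le_antisymm h6 (Int.le_of_dvd h9 h2)
    rw [← hreal, h10]
    push_cast
    rfl

/-- A column which meets the principal block is supported on it. -/
theorem sup0 (hRAT : StRAT) (X : PK I p a P) (Q : ℂ → Prop) (hQ : PI p Q) (j : I)
    (hj : j ∈ B0 X Q) (i : I) (hji : X.s j i ≠ 0) (k : I) (hki : X.s k i ≠ 0) : k ∈ B0 X Q := by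
  by_contra hk
  have h1 : 0 < ∑ l ∈ B0 X Q, ‖X.s l i‖ ^ 2 := by
    refine lt_of_lt_of_le (?_ : 0 < ‖X.s j i‖ ^ 2)
      (Finset.single_le_sum (f := fun l => ‖X.s l i‖ ^ 2) (fun _ _ => sq_nonneg _) hj)
    have := norm_pos_iff.2 hji
    positivity
  rcases mass hRAT X Q hQ i with h2 | h2
  · rw [h2] at h1
    exact lt_irrefl _ h1
  · have h4 : ∑ j ∈ B0 X Q, ‖X.s j i‖ ^ 2 + ∑ j ∈ (B0 X Q)ᶜ, ‖X.s j i‖ ^ 2 = (P : ℝ) ^ 2 := by
      rw [Finset.sum_add_sum_compl, norm_col]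
    have h9 : ∑ j ∈ (B0 X Q)ᶜ, ‖X.s j i‖ ^ 2 = 0 := by linarith
    have h10 := (Finset.sum_eq_zero_iff_of_nonneg (fun _ _ => sq_nonneg _)).1 h9 k
      (Finset.mem_compl.2 hk)
    exact hki (norm_eq_zero.1 (pow_eq_zero_iff (two_ne_zero) |>.1 h10))

theorem t_ne (X : PK I p a P) (i : I) : X.t i ≠ 0 := by
  intro h
  have h1 := X.t_pow i
  rw [h, zero_pow (pow_ne_zero _ X.prime.ne_zero)] at h1
  exact zero_ne_one h1

open Classical in
/-- `p` does not divide `y o`. -/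
theorem x_nd (hRAT : StRAT) (X : PK I p a P) (Q : ℂ → Prop) (hQ : PI p Q) :
    ¬ (p : ℤ) ∣ X.y X.o := by
  intro hx
  have hpp : p.Prime := X.prime
  have pp : Prime (p : ℤ) := Nat.prime_iff_prime_int.mp hpp
  have hP := P_pos X
  have hp0 : (0 : ℝ) < (P : ℝ) ^ 2 := by
    have : (0 : ℝ) < P := by exact_mod_cast hP
    positivity
  have hint : ∀ n : ℤ, IsIntegral ℤ (n : ℂ) := fun n => isIntegral_algebraMap
  have hnat : ∀ n : ℕ, IsIntegral ℤ (n : ℂ) := fun n => by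
    have := hint n
    exact_mod_cast this
  have key := sup0 hRAT X Q hQ
  -- the columns which meet the block
  obtain ⟨B', hB'⟩ : ∃ B' : Finset I, ∀ i, i ∈ B' ↔ ∃ j ∈ B0 X Q, X.s j i ≠ 0 :=
    ⟨Finset.univ.filter fun i => ∃ j ∈ B0 X Q, X.s j i ≠ 0, fun i => by simp⟩
  have hsup1 : ∀ i ∈ B', ∀ k, X.s k i ≠ 0 → k ∈ B0 X Q := by
    intro i hi k hk
    obtain ⟨j, hj, hji⟩ := (hB' i).1 hi
    exact key j hj i hji k hk
  have hsup2 : ∀ i ∈ B', ∀ k, X.s k i ≠ 0 → k ∈ B' := by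
    intro i hi k hk
    have hw := X.weil 1 k i
    rw [inv_one, X.pi_one] at hw
    have hr : (P : ℂ) * (X.t k ^ (-((1 : (ZMod (p ^ a))ˣ) : ZMod (p ^ a))).val *
        X.t i ^ (-((1 : (ZMod (p ^ a))ˣ) : ZMod (p ^ a))).val) * X.s k i ≠ 0 := by
      refine mul_ne_zero (mul_ne_zero (by exact_mod_cast hP.ne') (mul_ne_zero ?_ ?_)) hk
      · exact pow_ne_zero _ (t_ne X k)
      · exact pow_ne_zero _ (t_ne X i)
    rw [← hw] at hr
    obtain ⟨l, _, hl⟩ := Finset.exists_ne_zero_of_sum_ne_zero hr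
    have h1 : X.s k l ≠ 0 := fun h => hl (by rw [h]; ring)
    have h2 : X.s l i ≠ 0 := fun h => hl (by rw [h]; ring)
    rw [hB']
    exact ⟨l, hsup1 i hi l h2, by rw [X.s_symm]; exact h1⟩
  have hcol : ∀ i ∈ B', ∑ j ∈ B0 X Q ∩ B', ‖X.s j i‖ ^ 2 = (P : ℝ) ^ 2 := by
    intro i hi
    rw [← norm_col X i]
    apply Finset.sum_subset (Finset.subset_univ _)
    intro k _ hk
    by_cases h : X.s k i = 0
    · rw [h]; simp
    · exact absurd (Finset.mem_inter.2 ⟨hsup1 i hi k h, hsup2 i hi k h⟩) hk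
  have hcount1 : B'.card ≤ (B0 X Q ∩ B').card := by
    have h1 : (B'.card : ℝ) * (P : ℝ) ^ 2 ≤ ((B0 X Q ∩ B').card : ℝ) * (P : ℝ) ^ 2 := by
      calc (B'.card : ℝ) * (P : ℝ) ^ 2 = ∑ i ∈ B', ∑ j ∈ B0 X Q ∩ B', ‖X.s j i‖ ^ 2 := by
            rw [Finset.sum_congr rfl hcol, Finset.sum_const, nsmul_eq_mul]
        _ = ∑ j ∈ B0 X Q ∩ B', ∑ i ∈ B', ‖X.s j i‖ ^ 2 := Finset.sum_comm
        _ ≤ ∑ j ∈ B0 X Q ∩ B', (P : ℝ) ^ 2 := by
            refine Finset.sum_le_sum fun j _ => ?_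
            rw [← norm_row X j]
            exact Finset.sum_le_sum_of_subset_of_nonneg (Finset.subset_univ _)
              fun _ _ _ => sq_nonneg _
        _ = ((B0 X Q ∩ B').card : ℝ) * (P : ℝ) ^ 2 := by
            rw [Finset.sum_const, nsmul_eq_mul]
    exact_mod_cast le_of_mul_le_mul_right h1 hp0
  have hC : B0 X Q ∩ B' = B' := Finset.eq_of_subset_of_card_le Finset.inter_subset_right hcount1
  have hsub : B' ⊆ B0 X Q := by
    rw [← hC]
    exact Finset.inter_subset_left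
  have hcount2 : (B0 X Q).card ≤ B'.card := by
    have h1 : ((B0 X Q).card : ℝ) * (P : ℝ) ^ 2 ≤ (B'.card : ℝ) * (P : ℝ) ^ 2 := by
      calc ((B0 X Q).card : ℝ) * (P : ℝ) ^ 2 = ∑ j ∈ B0 X Q, ∑ i ∈ B', ‖X.s j i‖ ^ 2 := by
            have h2 : ∀ j ∈ B0 X Q, ∑ i ∈ B', ‖X.s j i‖ ^ 2 = (P : ℝ) ^ 2 := by
              intro j hj
              rw [← norm_row X j]
              apply Finset.sum_subset (Finset.subset_univ _)
              intro i _ hi
              by_cases h : X.s j i = 0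
              · rw [h]; simp
              · exact absurd ((hB' i).2 ⟨j, hj, h⟩) hi
            rw [Finset.sum_congr rfl h2, Finset.sum_const, nsmul_eq_mul]
        _ = ∑ i ∈ B', ∑ j ∈ B0 X Q, ‖X.s j i‖ ^ 2 := Finset.sum_comm
        _ ≤ ∑ i ∈ B', (P : ℝ) ^ 2 := by
            refine Finset.sum_le_sum fun i _ => ?_
            rw [← norm_col X i]
            exact Finset.sum_le_sum_of_subset_of_nonneg (Finset.subset_univ _)
              fun _ _ _ => sq_nonneg _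
        _ = (B'.card : ℝ) * (P : ℝ) ^ 2 := by
            rw [Finset.sum_const, nsmul_eq_mul]
    exact_mod_cast le_of_mul_le_mul_right h1 hp0
  have hBB : B' = B0 X Q := Finset.eq_of_subset_of_card_le hsub hcount2
  have hyB : ∀ j, j ∉ B0 X Q → X.y j = 0 := by
    intro j hj
    by_contra h
    apply hj
    refine hsup1 X.o (by rw [hBB]; exact o_mem X Q hQ) j ?_
    rw [X.s_o]
    exact_mod_cast h
  -- all `y j` are divisible by `p`
  have hm : ¬ (p : ℤ) ∣ (X.m : ℤ) ^ 2 := by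
    intro h
    exact X.cop (by exact_mod_cast pp.dvd_of_dvd_pow h)
  have hyd : ∀ j, (p : ℤ) ∣ X.y j := by
    intro j
    by_cases hj : j ∈ B0 X Q
    · obtain ⟨w, hw1, hw2⟩ := cgr X Q hQ j hj
      have h1 := hw2 X.o
      rw [X.s_o] at h1
      obtain ⟨x', hx'⟩ := hx
      have h2 : Q (((X.m : ℤ) ^ 2 * X.y j : ℤ) : ℂ) := by
        push_cast
        rw [h1, mul_add]
        refine hQ.add _ _ ?_ (hQ.mul _ _ (hnat _) (hw1 _))
        rw [hx']
        have h3 : (X.d j : ℂ) * ((X.m : ℂ) ^ 2 * (((p : ℤ) * x' : ℤ) : ℂ)) =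
            ((X.d j : ℂ) * (X.m : ℂ) ^ 2 * (x' : ℂ)) * ((p : ℤ) : ℂ) := by
          push_cast
          ring
        rw [h3]
        exact hQ.mul _ _ (((hnat _).mul ((hnat _).pow 2)).mul (hint _)) ((hQ.int_iff _).2 (dvd_refl _))
      rw [hQ.int_iff] at h2
      rcases pp.dvd_or_dvd h2 with h3 | h3
      · exact absurd h3 hm
      · exact h3
    · rw [hyB j hj]
      exact dvd_zero _
  have h1 := X.sz X.o
  have h2 : ((∑ j, X.y j * X.z j : ℤ) : ℂ) = ((1 : ℤ) : ℂ) := by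
    rw [X.d_o] at h1
    push_cast
    rw [Nat.cast_one] at h1
    rw [← h1]
    exact Finset.sum_congr rfl fun j _ => by rw [so]
  have h3 : (∑ j, X.y j * X.z j : ℤ) = 1 := by exact_mod_cast h2
  have h4 : (p : ℤ) ∣ 1 := by
    rw [← h3]
    exact Finset.dvd_sum fun j _ => Dvd.dvd.mul_right (hyd j) _
  have h5 : p ∣ 1 := by exact_mod_cast h4
  exact hpp.one_lt.ne' (Nat.dvd_one.1 h5)

/-- The principal block: it is `{y ≠ 0}`. -/
theorem hBK (hRAT : StRAT) (X : PK I p a P) (Q : ℂ → Prop) (hQ : PI p Q) : BK X Q := by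
  have hx := x_nd hRAT X Q hQ
  have pp : Prime (p : ℤ) := Nat.prime_iff_prime_int.mp X.prime
  have hm : ¬ (p : ℤ) ∣ (X.m : ℤ) ^ 2 := by
    intro h
    exact X.cop (by exact_mod_cast pp.dvd_of_dvd_pow h)
  have hy0 : X.y X.o ≠ 0 := fun h => hx (h ▸ dvd_zero _)
  have hint : ∀ n : ℤ, IsIntegral ℤ (n : ℂ) := fun n => isIntegral_algebraMap
  have hB1 : ∀ j, X.y j ≠ 0 → j ∈ B0 X Q := by
    intro j hj
    refine sup0 hRAT X Q hQ X.o (o_mem X Q hQ) X.o ?_ j ?_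
    · rw [X.s_o]
      exact_mod_cast hy0
    · rw [X.s_o]
      exact_mod_cast hj
  have hB2 : ∀ j ∈ B0 X Q, ∃ c : ℤ, ¬ (p : ℤ) ∣ c ∧ (X.m : ℤ) ^ 2 * X.y j = X.d j * c := by
    intro j hj
    obtain ⟨w, hw1, hw2⟩ := cgr X Q hQ j hj
    have h1 := hw2 X.o
    rw [X.s_o] at h1
    have hdj : (X.d j : ℂ) ≠ 0 := by
      have := X.d_pos j
      exact_mod_cast this.ne'
    have hCq : (((X.m : ℚ) ^ 2 * X.y j / X.d j : ℚ) : ℂ) = (X.m : ℂ) ^ 2 * X.y X.o + w X.o := by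
      push_cast
      rw [h1]
      field_simp
    have hCi : IsIntegral ℤ ((X.m : ℂ) ^ 2 * X.y X.o + w X.o) := by
      refine IsIntegral.add ?_ (hQ.int _ (hw1 _))
      have := hint ((X.m : ℤ) ^ 2 * X.y X.o)
      push_cast at this
      exact this
    obtain ⟨c, hc⟩ := hRAT.2 ((X.m : ℚ) ^ 2 * X.y j / X.d j) (by rw [hCq]; exact hCi)
    have hcC : (c : ℂ) = (X.m : ℂ) ^ 2 * X.y X.o + w X.o := by
      rw [← hCq, ← hc]
      simp
    refine ⟨c, ?_, ?_⟩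
    · intro h
      have h2 : Q ((c - (X.m : ℤ) ^ 2 * X.y X.o : ℤ) : ℂ) := by
        push_cast
        rw [hcC, add_sub_cancel_left]
        exact hw1 _
      rw [hQ.int_iff] at h2
      have h3 : (p : ℤ) ∣ (X.m : ℤ) ^ 2 * X.y X.o := by
        have := dvd_sub h h2
        simpa using this
      rcases pp.dvd_or_dvd h3 with h4 | h4
      · exact hm h4
      · exact hx h4
    · have h2 : ((X.m : ℂ) ^ 2 * X.y j) = X.d j * c := by rw [hcC, h1]
      exact_mod_cast h2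
  have hB3 : ∀ j ∈ B0 X Q, X.y j ≠ 0 := by
    intro j hj h
    obtain ⟨c, hc, h1⟩ := hB2 j hj
    rw [h, mul_zero] at h1
    have hd : (X.d j : ℤ) ≠ 0 := by
      have := X.d_pos j
      exact_mod_cast this.ne'
    rcases mul_eq_zero.mp h1.symm with h2 | h2
    · exact hd h2
    · exact hc (by rw [h2]; exact dvd_zero _)
  refine ⟨hQ, hx, fun j hj => hB2 j (hB1 j hj), ?_, ?_, ?_⟩
  · intro j hj i
    obtain ⟨w, hw1, hw2⟩ := cgr X Q hQ j (hB1 j hj)
    exact ⟨w i, hw1 i, hQ.int _ (hw1 i), hw2 i⟩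
  · intro j i hj hi
    by_contra h
    refine hB3 i (sup0 hRAT X Q hQ X.o (o_mem X Q hQ) j ?_ i ?_) hi
    · rw [so]
      exact_mod_cast hj
    · rw [X.s_symm]
      exact h
  · intro j hj
    exact (mem_B0 X Q j).1 (hB1 j hj)

end

end Pool.Agent.Helper94.P2
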