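import Pool.Agent.Helper94.P2.Arith2

/-! # MP_2b6189_al: the odd numbers below `408375` -/

set_option autoImplicit false

namespace Pool.Agent.Helper94.P2

/-- `n = p ^ 2 m`, with the conditions of `k2b` -/
def IsK2b (n : ℕ) : Prop :=
  ∃ p q r m : ℕ, p.Prime ∧ q.Prime ∧ r.Prime ∧ n = p ^ 2 * m ∧ ¬ p ∣ m ∧ q ≠ p ∧ r ≠ p ∧
      (∀ l : ℕ, l.Prime → l ∣ m → l = q ∨ l = r) ∧ p < q ^ 2 ∧ p < r ^ 2

theorem isK2b_mk {p q r b c n : ℕ} (hp : p.Prime) (hq : q.Prime) (hr : r.Prime) (hpq : q ≠ p)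
    (hpr : r ≠ p) (hn : n = p ^ 2 * (q ^ b * r ^ c)) (h1 : p < q ^ 2)
    (h2 : p < r ^ 2) : IsK2b n := by
  have hrl : ∀ l : ℕ, l.Prime → l ∣ r ^ c → l = r := fun l hl h =>
    (Nat.prime_dvd_prime_iff_eq hl hr).1 (hl.dvd_of_dvd_pow h)
  have hql : ∀ l : ℕ, l.Prime → l ∣ q ^ b → l = q := fun l hl h =>
    (Nat.prime_dvd_prime_iff_eq hl hq).1 (hl.dvd_of_dvd_pow h)
  refine ⟨p, q, r, q ^ b * r ^ c, hp, hq, hr, hn, ?_, hpq, hpr, ?_, h1, h2⟩
  · intro h
    rcases (Nat.Prime.dvd_mul hp).1 h with h | h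
    · exact hpq (hql p hp h).symm
    · exact hpr (hrl p hp h).symm
  · intro l hl h
    rcases (Nat.Prime.dvd_mul hl).1 h with h | h
    · exact Or.inl (hql l hl h)
    · exact Or.inr (hrl l hl h)

/-- **The odd numbers below `408375`**: a prime dividing exactly once, or at most two prime
divisors, or `p ^ 2 m` with the conditions of `k2b`. -/
theorem arithOdd2 (n : ℕ) (h1 : 1 < n) (h2 : n < 408375) (hodd : ¬ 2 ∣ n) :
    (∃ p : ℕ, p.Prime ∧ p ∣ n ∧ ¬ p * p ∣ n) ∨ (∃ c : ℕ, n = 2 ^ (c + 1)) ∨ IsTwo n ∨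
      IsK2b n := by
  by_cases hex : ∃ p : ℕ, p.Prime ∧ p ∣ n ∧ ¬ p * p ∣ n
  · exact Or.inl hex
  right
  push Not at hex
  rcases shape n h1 hex (Or.inr ⟨hodd, by omega⟩) with h | h | h
  · exact Or.inl h
  · exact Or.inr (Or.inl h)
  right; right
  obtain ⟨p, q, r, a, b, c, hp, hq, hr, hpq, hqr, ha, hb, hc, hn⟩ := h
  have hp2 := hp.two_le
  have p2 : p ≠ 2 := by
    rintro rfl
    apply hodd
    rw [hn]
    exact Dvd.dvd.mul_right (dvd_pow_self 2 (by omega)) _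
  have q4 : q ≠ 4 := by rintro rfl; exact absurd hq (by norm_num)
  have q9 : q ≠ 9 := by rintro rfl; exact absurd hq (by norm_num)
  have q10 : q ≠ 10 := by rintro rfl; exact absurd hq (by norm_num)
  have r6 : r ≠ 6 := by rintro rfl; exact absurd hr (by norm_num)
  have r9 : r ≠ 9 := by rintro rfl; exact absurd hr (by norm_num)
  have r10 : r ≠ 10 := by rintro rfl; exact absurd hr (by norm_num)
  have r12 : r ≠ 12 := by rintro rfl; exact absurd hr (by norm_num)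
  have hlow : ∀ x y z : ℕ, x ≤ p ^ a → y ≤ q ^ b → z ≤ r ^ c → x * (y * z) < 408375 := by
    intro x y z hx hy hz
    have h3 : x * (y * z) ≤ p ^ a * (q ^ b * r ^ c) := Nat.mul_le_mul hx (Nat.mul_le_mul hy hz)
    omega
  have hpp : 3 ^ 2 ≤ p ^ 2 := Nat.pow_le_pow_left (by omega) 2
  have hqq : q * 5 ≤ q ^ 2 := by
    rw [sq]
    exact Nat.mul_le_mul_left q (by omega)
  have hrr : r * 6 ≤ r ^ 2 := by
    rw [sq]
    exact Nat.mul_le_mul_left r (by omega)
  by_cases a2 : a = 2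
  · subst a2
    exact isK2b_mk hp hq hr (by omega) (by omega) hn (by omega) (by omega)
  have a3 : 3 ^ 3 ≤ p ^ a :=
    (Nat.pow_le_pow_left (show 3 ≤ p by omega) 3).trans (Nat.pow_le_pow_right hp.pos (by omega))
  by_cases b2 : b = 2
  · subst b2
    have hqp : q < p ^ 2 := by
      by_contra h3
      have h7 := hlow (3 ^ 3) (11 ^ 2) (13 ^ 2) a3
        (Nat.pow_le_pow_left (show 11 ≤ q by omega) 2)
        ((Nat.pow_le_pow_left (show 13 ≤ r by omega) 2).trans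
          (Nat.pow_le_pow_right hr.pos hc))
      norm_num at h7
    exact isK2b_mk (b := a) (c := c) hq hp hr (by omega) (by omega)
      (by rw [hn]; ring) hqp (by omega)
  have b3 : 5 ^ 3 ≤ q ^ b :=
    (Nat.pow_le_pow_left (show 5 ≤ q by omega) 3).trans (Nat.pow_le_pow_right hq.pos (by omega))
  by_cases c2 : c = 2
  · subst c2
    have hrp : r < p ^ 2 := by
      by_contra h3
      have h7 := hlow (3 ^ 3) (5 ^ 3) (11 ^ 2) a3 b3
        (Nat.pow_le_pow_left (show 11 ≤ r by omega) 2)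
      norm_num at h7
    have hrq : p ^ 2 ≤ q ^ 2 := Nat.pow_le_pow_left (by omega) 2
    exact isK2b_mk (b := a) (c := b) hr hp hq (by omega) (by omega)
      (by rw [hn]; ring) hrp (by omega)
  exfalso
  have h7 := hlow (3 ^ 3) (5 ^ 3) (7 ^ 3) a3 b3
    ((Nat.pow_le_pow_left (show 7 ≤ r by omega) 3).trans (Nat.pow_le_pow_right hr.pos (by omega)))
  norm_num at h7

end Pool.Agent.Helper94.P2
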