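import Pool.Agent.Helper94.P2.OddProg

/-! # MP_2b6189_al: dimensions `4 k`, `k` odd, below `44100`, a verified search, the program -/

set_option autoImplicit false

namespace Pool.Agent.Helper94.P2.EV

open Pool.Agent.Helper89.PQ0 (Tup)

open Pool.Agent.Helper52.PN.Sr

/-- there is no ghost tuple for the exact prime `p` of `p m`; `NN` contains the divisors of `p - 1`
which are at least `3` -/
def gf4 (p : ℕ) (NN : List ℕ) (s m : ℕ) : Bool :=
  NN.all fun N => (divs m s s).all fun A =>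
    Nat.ble (2 * A + 1) ((p + 1) * (p + 1)) ||
      ((!(Nat.beq ((A + (p - N)) % p) 0) && !(Nat.beq ((A + N) % p) 0)) ||
        srch p ((p - 1) / N) A (divs m s s))

theorem gf4_sound (p : ℕ) (NN : List ℕ) (s m : ℕ) (hp : p.Prime)
    (hNN : ∀ N, N ∣ p - 1 → 3 ≤ N → N ∈ NN) (hm : 0 < m)
    (hs : m < (s + 1) ^ 2) (h : gf4 p NN s m = true) : ¬ Gho p m := by
  rintro ⟨N, A, hN3, hNp, hAm, hA, hc, hT⟩
  have hNle : N ≤ p := (Nat.le_of_dvd (by have := hp.two_le; omega) hNp).trans (Nat.sub_le _ _)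
  unfold gf4 at h
  have hN2 := List.all_eq_true.1 h N (hNN N hNp hN3)
  have hAA := List.all_eq_true.1 hN2 A (mem_divs m s A hAm hm hs)
  rw [Bool.or_eq_true, Nat.ble_eq, Bool.or_eq_true] at hAA
  have hA1 : ¬ 2 * A + 1 ≤ (p + 1) * (p + 1) := by
    intro h1
    nlinarith
  have hA2 := hAA.resolve_left hA1
  have hA3 : ¬ ((!(Nat.beq ((A + (p - N)) % p) 0) && !(Nat.beq ((A + N) % p) 0)) = true) := by
    intro h1
    have h2 := OD.cg_of (p := p) (N := N) (A := A) hNle hc
    unfold OD.cg at h2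
    rw [Bool.or_eq_true] at h2
    rw [Bool.and_eq_true, Bool.not_eq_true', Bool.not_eq_true'] at h1
    rcases h2 with h2 | h2
    · rw [h1.1] at h2
      cases h2
    · rw [h1.2] at h2
      cases h2
  exact OD.srch_sound p m N A _ hp (by omega) (fun x hx => mem_divs m s x hx hm hs)
    (hA2.resolve_left hA3) hT

/-- the primes, the divisors of `p - 1`, a bound for the square root -/
def ps4 : List (ℕ × (List ℕ × ℕ)) :=
  [(43, [3, 6, 7, 14, 21, 42], 32), (41, [4, 5, 8, 10, 20, 40], 32),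
   (37, [3, 4, 6, 9, 12, 18, 36], 34), (31, [3, 5, 6, 10, 15, 30], 37), (29, [4, 7, 14, 28], 38),
   (23, [11, 22], 43), (19, [3, 6, 9, 18], 48), (17, [4, 8, 16], 50), (13, [3, 4, 6, 12], 58),
   (11, [5, 10], 63), (7, [3, 6], 79), (5, [4], 93)]

/-- the test of `n` -/
def okn4 (n : ℕ) : Bool :=
  ex n 3 || (ps4.any (fun q => ex n q.1 && gf4 q.1 q.2.1 q.2.2 (n / q.1)) ||
    ps4.all (fun q => !(ex n q.1)))

/-- the test of an interval -/
def okb4 (a : ℕ) : ℕ → Bool
  | 0 => true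
  | k + 1 => okn4 (4 * (2 * (a + k) + 1)) && okb4 a k

theorem okb4_spec (a k j : ℕ) (h : okb4 a k = true) (h1 : a ≤ j) (h2 : j < a + k) :
    okn4 (4 * (2 * j + 1)) = true := by
  induction k with
  | zero => omega
  | succ k ih =>
    rw [okb4, Bool.and_eq_true] at h
    rcases Nat.lt_or_ge j (a + k) with h3 | h3
    · exact ih h.2 h3
    · obtain rfl : j = a + k := by omega
      exact h.1

end Pool.Agent.Helper94.P2.EV
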