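import Pool.Agent.Helper94.P2.Ev4

/-! # MP_2b6189_al: dimensions `4 k`, `k` odd, below `44100`, the computation -/

set_option autoImplicit false
set_option maxRecDepth 100000

namespace Pool.Agent.Helper94.P2.EV

theorem e2835 : okb4 2835 450 = true := by decide +kernel
theorem e3285 : okb4 3285 450 = true := by decide +kernel
theorem e3735 : okb4 3735 450 = true := by decide +kernel
theorem e4185 : okb4 4185 450 = true := by decide +kernel
theorem e4635 : okb4 4635 450 = true := by decide +kernel
theorem e5085 : okb4 5085 427 = true := by decide +kernel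

theorem okn4_all (j : ℕ) (h1 : 22680 ≤ 4 * (2 * j + 1)) (h2 : 4 * (2 * j + 1) < 44100) :
    okn4 (4 * (2 * j + 1)) = true := by
  rcases Nat.lt_or_ge j 3285 with h | h
  · exact okb4_spec 2835 450 j e2835 (by omega) (by omega)
  rcases Nat.lt_or_ge j 3735 with h | h
  · exact okb4_spec 3285 450 j e3285 (by omega) (by omega)
  rcases Nat.lt_or_ge j 4185 with h | h
  · exact okb4_spec 3735 450 j e3735 (by omega) (by omega)
  rcases Nat.lt_or_ge j 4635 with h | h
  · exact okb4_spec 4185 450 j e4185 (by omega) (by omega)
  rcases Nat.lt_or_ge j 5085 with h | h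
  · exact okb4_spec 4635 450 j e4635 (by omega) (by omega)
  exact okb4_spec 5085 427 j e5085 (by omega) (by omega)

end Pool.Agent.Helper94.P2.EV
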