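import Pool.Agent.Helper94.P2.Ev4A
import Pool.Agent.Helper94.P2.Below2
import Pool.Agent.Helper94.P2.Odd2Fin
import Pool.Agent.Helper94.AL.Even
import Pool.Agent.Helper89.PQ0.OnceT

/-! # MP_2b6189_al: all dimensions below `44100` not divisible by `8` -/

set_option autoImplicit false

namespace Pool.Agent.Helper94.P2

open Pool.Agent.Helper94.YF Pool.Agent.Helper94.YG
open Pool.Agent.Helper89.OC (TanSet)
open Pool.Agent.Helper52.PN (ex_iff)
open Pool.Agent.Helper52.PN.Sr (Gho ex)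

namespace EV

/-- ghost primes are at least `5` and the dimension is large -/
theorem Gho_bound {p m : ℕ} (hp : p.Prime) (hm : 0 < m) (h : Gho p m) :
    4 ≤ p ∧ (p + 1) ^ 2 ≤ 2 * m := by
  obtain ⟨N, A, hN3, hNp, hAm, hA, -⟩ := h
  have h1 := Nat.le_of_dvd (by have := hp.two_le; omega) hNp
  have h2 := Nat.le_of_dvd hm hAm
  exact ⟨by omega, by omega⟩

/-- For every `n = 4 (2 j + 1)` from `22680` to `44100` which is divisible by some prime exactly
once there is such a prime which is not a ghost prime. -/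
theorem small4 (n j q : ℕ) (hj : n = 4 * (2 * j + 1)) (hn1 : 22680 ≤ n) (hn : n < 44100)
    (hq : q.Prime) (h1 : q ∣ n) (h2 : ¬ q * q ∣ n) :
    ∃ p m : ℕ, p.Prime ∧ n = p * m ∧ ¬ p ∣ m ∧ 0 < m ∧ ¬ Gho p m := by
  have key : ∀ p : ℕ, p.Prime → p ∣ n → ¬ p * p ∣ n → (∀ m, n = p * m → 0 < m → ¬ Gho p m) →
      ∃ p m : ℕ, p.Prime ∧ n = p * m ∧ ¬ p ∣ m ∧ 0 < m ∧ ¬ Gho p m := by
    intro p hp ha hb hc
    obtain ⟨m, hm⟩ := ha
    have hm0 : 0 < m := by
      rcases Nat.eq_zero_or_pos m with rfl | h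
      · omega
      · exact h
    refine ⟨p, m, hp, hm, ?_, hm0, hc m hm hm0⟩
    rintro ⟨c, rfl⟩
    exact hb ⟨c, by rw [hm, mul_assoc]⟩
  -- large primes
  have big : ∀ p : ℕ, p.Prime → 45 ≤ p → ∀ m, n = p * m → 0 < m → ¬ Gho p m := by
    intro p hp h45 m hm hm0 hG
    have h3 := (Gho_bound hp hm0 hG).2
    have h4 : 45 * ((45 + 1) ^ 2) ≤ p * (2 * m) := Nat.mul_le_mul h45 (le_trans (by gcongr) h3)
    have h5 : p * (2 * m) = 2 * n := by rw [hm]; ring
    omega
  have tiny : ∀ p : ℕ, p.Prime → p ≤ 3 → ∀ m, n = p * m → 0 < m → ¬ Gho p m := by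
    intro p hp h3 m _ hm0 hG
    have := (Gho_bound hp hm0 hG).1
    omega
  have hok : okn4 n = true := by
    rw [hj]
    exact okn4_all j (by omega) (by omega)
  unfold okn4 at hok
  simp only [Bool.or_eq_true] at hok
  rcases hok with h | h | h
  · obtain ⟨a, b⟩ := ex_iff.1 h
    exact key 3 Nat.prime_three a b (tiny 3 Nat.prime_three (by omega))
  · obtain ⟨x, hx, h3⟩ := List.any_eq_true.1 h
    rw [Bool.and_eq_true] at h3
    obtain ⟨a, b⟩ := ex_iff.1 h3.1
    have hx2 : x.1.Prime ∧ (∀ N, N < x.1 → N ∣ x.1 - 1 → 3 ≤ N → x.2.1.contains N = true) ∧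
        44100 ≤ x.1 * (x.2.2 + 1) ^ 2 := by
      unfold ps4 at hx
      simp only [List.mem_cons, List.not_mem_nil, or_false] at hx
      rcases hx with rfl | rfl | rfl | rfl | rfl | rfl | rfl | rfl | rfl | rfl | rfl | rfl <;>
        exact ⟨by norm_num, by decide, by norm_num⟩
    refine key x.1 hx2.1 a b fun m hm hm0 => ?_
    have hdiv : n / x.1 = m := by
      rw [hm]
      exact Nat.mul_div_cancel_left m hx2.1.pos
    rw [hdiv] at h3
    refine gf4_sound x.1 x.2.1 x.2.2 m hx2.1 ?_ hm0 ?_ h3.2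
    · intro N g1 g2
      rw [← List.contains_iff_mem]
      refine hx2.2.1 N ?_ g1 g2
      have := Nat.le_of_dvd (by have := hx2.1.two_le; omega) g1
      have := hx2.1.two_le
      omega
    · by_contra h4
      have h5 := Nat.mul_le_mul_left x.1 (not_lt.1 h4)
      rw [← hm] at h5
      omega
  · rcases Nat.lt_or_ge q 45 with h45 | h45
    · have hall := List.all_eq_true.1 h
      have hqq : q = 2 ∨ q = 3 ∨ (∃ s, (q, s) ∈ ps4) := by
        unfold ps4
        interval_cases q <;> (revert hq; norm_num)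
      rcases hqq with rfl | rfl | ⟨s, hs⟩
      · exact key 2 Nat.prime_two h1 h2 (tiny 2 Nat.prime_two (by omega))
      · exact key 3 Nat.prime_three h1 h2 (tiny 3 Nat.prime_three (by omega))
      · exfalso
        have h3 := hall (q, s) hs
        rw [ex_iff.2 ⟨h1, h2⟩] at h3
        cases h3
    · exact key q hq h1 h2 (big q hq h45)

end EV

variable {I : Type} [Fintype I] [DecidableEq I]

/-- **Theorem.**  All dimensions `1 < n < 44100` which are not divisible by `8`. -/
theorem below8 (Z : CentreData I) (h1 : 1 < Z.n) (h2 : Z.n < 44100) (h8 : ¬ 8 ∣ Z.n) :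
    ∃ D : I → Prop, TanSet Z D := by
  by_cases hsm : Z.n < 22680
  · exact below2 Z h1 hsm (fun h => h8 (by rw [h]; norm_num)) (fun h => h8 (by rw [h]; norm_num))
  by_cases h4 : 4 ∣ Z.n
  · obtain ⟨k, hk⟩ := h4
    obtain ⟨j, hj⟩ : ∃ j, k = 2 * j + 1 := by
      rcases Nat.even_or_odd' k with ⟨j, h | h⟩
      · exact absurd ⟨j, by rw [hk, h]; ring⟩ h8
      · exact ⟨j, h⟩
    have hn : Z.n = 4 * (2 * j + 1) := by rw [hk, hj]
    by_cases hex : ∃ q : ℕ, q.Prime ∧ q ∣ Z.n ∧ ¬ q * q ∣ Z.n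
    · by_contra hT
      obtain ⟨q, hq, e1, e2⟩ := hex
      obtain ⟨p', m', hp', hn', hpm', -, hG⟩ :=
        EV.small4 Z.n j q hn (by omega) h2 hq e1 e2
      apply hG
      obtain ⟨-, N, A, g2, g3, g4, g5, g6, g7, -⟩ :=
        Pool.Agent.Helper89.PQ0.primeOnceT I Z p' m' hp' hn' hpm' hT
      exact ⟨N, A, g2, g3, g4, g5, g6, g7⟩
    · push Not at hex
      rcases shape Z.n h1 hex (Or.inl h2) with ⟨c, hc⟩ | ⟨p, q, l, m, hp, hp2, -, hl, hn, hpm, hm⟩ |
        ⟨p, q, r, a, b, c, hp, hq, hr, hpq, hqr, ha, hb, hc, hn'⟩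
      · exact Pool.Agent.Helper79.P2.pow2 Z c hc
      · exact Pool.Agent.Helper79.P2.two Z p l m q hp hp2 hl hn hpm hm
      · -- `p = 2`, `a = 2`
        have hp2 : p = 2 := by
          have h5 : 2 ∣ Z.n := ⟨2 * (2 * j + 1), by rw [hn]; ring⟩
          rw [hn'] at h5
          have h6 : ∀ l : ℕ, l.Prime → ∀ e : ℕ, 2 ∣ l ^ e → l = 2 := fun l hl e h =>
            ((Nat.prime_dvd_prime_iff_eq Nat.prime_two hl).1
              (Nat.prime_two.dvd_of_dvd_pow h)).symm
          rcases (Nat.Prime.dvd_mul Nat.prime_two).1 h5 with h | h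
          · exact h6 p hp a h
          · have := hp.two_le
            rcases (Nat.Prime.dvd_mul Nat.prime_two).1 h with h | h
            · have := h6 q hq b h
              omega
            · have := h6 r hr c h
              omega
        subst hp2
        have ha2 : a = 2 := by
          by_contra h5
          apply h8
          have h6 : 2 ^ 3 ∣ 2 ^ a := pow_dvd_pow 2 (by omega)
          rw [hn']
          exact Dvd.dvd.mul_right h6 _
        subst ha2
        obtain ⟨p, q, r, m, hp, hq, hr, hn, hpm, hqp, hrp, hm, h3, h4⟩ :=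
          isK2b_mk hp hq hr (by omega) (by omega) hn' (by nlinarith [hq.two_le])
            (by nlinarith [hr.two_le])
        exact Pool.Agent.Helper89.P2.k2b Z p m q r hp hq hr hn hpm hm hqp hrp h3 h4
  · by_cases hodd : Odd Z.n
    · exact belowOdd2 Z h1 hodd (by omega)
    · rw [Nat.not_odd_iff_even, even_iff_two_dvd] at hodd
      obtain ⟨m, hm⟩ := hodd
      refine Pool.Agent.Helper94.AL.even_tan I Z m hm ?_
      rw [← Nat.not_even_iff_odd, even_iff_two_dvd]
      rintro ⟨c, hc⟩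
      exact h4 ⟨c, by rw [hm, hc]; ring⟩

end Pool.Agent.Helper94.P2
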