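import Pool.Agent.Helper89.MG.Cop

/-!
# MP_2b6189_al, prime powers: self-dual invertible objects and the `2`-local data
-/

set_option autoImplicit false

namespace Pool.Agent.Helper94.P2

open Matrix ComplexConjugate Pool.Agent.Helper94.YG
open Pool.Agent.Helper94.YF hiding StORB
open Pool.Agent.Helper89.OS Pool.Agent.Helper89.OC Pool.Agent.Helper89.MG

section

variable {I : Type} [Fintype I] [DecidableEq I]

/-- The product of an object and an invertible object. -/
theorem ferm2 (Z : CentreData I) (del i : I) (hd : Z.d del = 1) :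
    ∃ v, (∀ W, Z.N i del W = if W = v then 1 else 0) ∧ Z.d v = Z.d i ∧
      ∀ k, Cchi Z k v = Cchi Z k i * Cchi Z k del := by
  obtain ⟨v, hv⟩ := inv_row Z del hd i
  refine ⟨v, hv, ?_, ?_⟩
  · have h := (glb Z).dim i del
    rw [hd, mul_one, Finset.sum_eq_single v] at h
    · rw [hv, if_pos rfl, one_mul] at h
      exact h.symm
    · intro W _ hW
      rw [hv, if_neg hW, zero_mul]
    · intro hh
      exact absurd (Finset.mem_univ _) hh
  · intro k
    rw [(gla Z).chi_mul, Finset.sum_eq_single v]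
    · rw [hv, if_pos rfl]
      simp
    · intro W _ hW
      rw [hv, if_neg hW]
      simp
    · intro hh
      exact absurd (Finset.mem_univ _) hh

/-- The characters of a self-dual invertible object are signs. -/
theorem chi_sq (Z : CentreData I) (del : I) (hd : Z.d del = 1) (hst : Z.st del = del) (i : I) :
    Cchi Z i del * Cchi Z i del = 1 := by
  obtain ⟨u, hu⟩ := inv_row Z del hd del
  have h1 := (glb Z).N_o del del
  rw [hst, if_pos rfl, hu] at h1
  have h2 : Z.o = u := by
    by_contra h
    rw [if_neg h] at h1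
    exact absurd h1 (by norm_num)
  rw [(gla Z).chi_mul, Finset.sum_eq_single u]
  · rw [hu, if_pos rfl, ← h2, (gla Z).chi_o]
    simp
  · intro W _ hW
    rw [hu, if_neg hW]
    simp
  · intro hh
    exact absurd (Finset.mem_univ _) hh

/-- For `p = 2` the idempotent is odd. -/
theorem idp_odd {L a : ℕ} (b : ZMod L) (hL : 0 < L) (hI : Idp L 2 a b) (ha : 1 ≤ a) :
    Odd b.val := by
  haveI : NeZero L := ⟨hL.ne'⟩
  obtain ⟨L', h1, h2, h3⟩ := hI.ex
  have h4 : (((L' : ℤ) * (1 - (b.val : ℤ)) : ℤ) : ZMod L) = 0 := by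
    push_cast
    rw [ZMod.natCast_zmod_val]
    exact h3
  rw [ZMod.intCast_zmod_eq_zero_iff_dvd] at h4
  have hL' : (L' : ℤ) ≠ 0 := by
    rintro h
    have : L' = 0 := by exact_mod_cast h
    rw [this] at h2
    exact h2 (dvd_zero _)
  have h5 : (2 : ℤ) ∣ 1 - (b.val : ℤ) := by
    have h6 : (L' : ℤ) * 2 ∣ (L' : ℤ) * (1 - (b.val : ℤ)) := by
      refine dvd_trans ?_ h4
      rw [h1]
      push_cast
      rw [mul_comm]
      exact mul_dvd_mul_right (dvd_pow_self 2 (by omega)) _
    exact (mul_dvd_mul_iff_left hL').1 h6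
  rw [Nat.odd_iff]
  omega

/-- An object `i` with `rho (s2 (1 - b)) i o ≠ 0`, `b` the `2`-part, centralises the self-dual invertible objects. -/
theorem ferm1 (Z : CentreData I) (a : ℕ) (b : ZMod Z.L) (hI : Idp Z.L 2 a b) (ha : 1 ≤ a)
    (del i : I) (hd : Z.d del = 1) (hst : Z.st del = del)
    (hz : Z.rho (s2 (1 - b)) i Z.o ≠ 0) : Sf Z i del = Z.d i := by
  obtain ⟨f1, f2, f3, f4, f5, f6, f7, f8, -⟩ := Helper36.YF.hFUS Helper88.YF.hDUA I Z.toCentreRep
  have hbb := hI.idem
  -- the entry of `Lo`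
  have hLo : Z.rho (Lo (1 - b)) i Z.o ≠ 0 := by
    intro h0
    apply hz
    show Z.rho (U (-(1 - b)) * Lo (1 - b) * U (-(1 - b))) i Z.o = 0
    rw [map_mul, map_mul, f1, Matrix.mul_diagonal, Matrix.diagonal_mul, h0]
    ring
  have hi : Z.tw b i = 1 := by
    have h := lo_supp Z (1 - b) (by linear_combination hbb) i hLo
    rwa [sub_sub_cancel] at h
  obtain ⟨v, hv, hdv, -⟩ := ferm2 Z del i hd
  -- the product of `v` and `del` is `i`
  have hvi : ∀ l, Z.N v (Z.st del) l = if l = i then 1 else 0 := by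
    obtain ⟨u, hu⟩ := inv_row Z del hd v
    have h1 : Z.N v del i = 1 := by
      rw [Nrot Z v del i, hst, hv, if_pos rfl]
    rw [hu] at h1
    have h2 : i = u := by
      by_contra h
      rw [if_neg h] at h1
      exact absurd h1 (by norm_num)
    intro l
    rw [hst, hu, h2]
  have hLv : Z.rho (Lo (1 - b)) v del = Z.rho (Lo (1 - b)) i Z.o := by
    rw [f8, Finset.sum_eq_single i]
    · rw [hvi, if_pos rfl]
      simp
    · intro l _ hl
      rw [hvi, if_neg hl]
      simp
    · intro hh
      exact absurd (Finset.mem_univ _) hh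
  have hcomm : (U b * Lo (1 - b) : SL Z.L) = Lo (1 - b) * U b := by
    apply Subtype.ext
    rw [Matrix.SpecialLinearGroup.coe_mul, Matrix.SpecialLinearGroup.coe_mul]
    ext i j
    have hb1 : (1 - b) * b = 0 := by rw [sub_mul, one_mul, hbb, sub_self]
    have hb2 : b * (1 - b) = 0 := by rw [mul_sub, mul_one, hbb, sub_self]
    fin_cases i <;> fin_cases j <;>
      simp [U, Lo, Matrix.mul_apply, Fin.sum_univ_two, hb1, hb2]
  have htv : Z.tw b v = Z.tw b del := by
    have h1 := congrArg Z.rho hcomm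
    rw [map_mul, map_mul, f1] at h1
    have h2 := congrFun (congrFun h1 v) del
    rw [Matrix.diagonal_mul, Matrix.mul_diagonal, hLv] at h2
    exact mul_right_cancel₀ hLo (by rw [h2, mul_comm])
  -- balancing
  have hbal : Cchi Z i del * (Z.th i * Z.th del) = Z.th v := by
    have h1 := (glc Z).twist i del
    rw [hst, Finset.sum_eq_single v] at h1
    · rw [hv, if_pos rfl, (gla Z).Sf_chi, hdv] at h1
      apply mul_left_cancel₀ (dC Z i)
      rw [← mul_assoc, h1]
      simp
      ring
    · intro l _ hl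
      rw [hv, if_neg hl]
      simp
    · intro hh
      exact absurd (Finset.mem_univ _) hh
  have hchi := chi_sq Z del hd hst i
  have hodd := idp_odd b Z.L_pos hI ha
  have hdel : Z.tw b del ≠ 0 := by
    intro h0
    have h1 := f7 b del
    rw [h0, mul_zero] at h1
    exact zero_ne_one h1
  have h1 : Cchi Z i del ^ b.val = 1 := by
    have h2 : Z.tw b v = Cchi Z i del ^ b.val * (Z.tw b i * Z.tw b del) := by
      show Z.th v ^ b.val = _ * (Z.th i ^ b.val * Z.th del ^ b.val)
      rw [← hbal, mul_pow, mul_pow]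
    rw [hi, one_mul, htv] at h2
    exact mul_right_cancel₀ hdel (by rw [← h2, one_mul])
  have h2 : Cchi Z i del ^ b.val = Cchi Z i del := by
    obtain ⟨c, hc⟩ := hodd
    rw [hc, pow_succ, pow_mul, pow_two, hchi, one_pow, one_mul]
  rw [h2] at h1
  rw [(gla Z).Sf_chi, h1, mul_one]

end

end Pool.Agent.Helper94.P2
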