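import Pool.Agent.Helper94.P2.OddProg

/-! # MP_2b6189_al: odd dimensions, the search for `p = 11` (third part) and for `p ≥ 19` -/

set_option autoImplicit false
set_option maxRecDepth 100000

namespace Pool.Agent.Helper94.P2.OD

theorem t5 : okI 11 [5] 122 61 52 6000 1517 = true := by decide +kernel
theorem u19 : okI 19 [9] 93 47 11 0 4352 = true := by decide +kernel
theorem u23 : okI 23 [11] 84 42 6 0 3595 = true := by decide +kernel
theorem u29 : okI 29 [7] 75 38 3 0 2852 = true := by decide +kernel
theorem u31 : okI 31 [5, 15] 73 37 3 0 2668 = true := by decide +kernel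
theorem u37 : okI 37 [9] 66 33 2 0 2235 = true := by decide +kernel
theorem u41 : okI 41 [5] 63 32 1 0 2017 = true := by decide +kernel
theorem u43 : okI 43 [7, 21] 62 31 1 0 1923 = true := by decide +kernel
theorem u47 : okI 47 [23] 59 30 1 0 1760 = true := by decide +kernel
theorem u53 : okI 53 [13] 55 28 1 0 1561 = true := by decide +kernel

end Pool.Agent.Helper94.P2.OD
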