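import Pool.Agent.Helper94.P2.OddA
import Pool.Agent.Helper94.P2.OddB
import Pool.Agent.Helper94.P2.OddC

/-! # MP_2b6189_al: no ghost primes below `165375`, odd dimension -/

set_option autoImplicit false

namespace Pool.Agent.Helper94.P2.OD

theorem one_prime (p : ℕ) (Ns : List ℕ) (s K C L m : ℕ) (hp : p.Prime)
    (hNs : ∀ N, N < p → N ∣ p - 1 → N % 2 = 1 → 5 ≤ N → Ns.contains N = true)
    (hs : 165375 ≤ p * (s + 1) ^ 2) (hK : s ≤ 2 * K)
    (hC : 165375 ≤ p * ((2 * C + 1) * ((p + 1) ^ 2))) (hL : 165375 ≤ p * (2 * L + 1))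
    (h : ∀ j, j < L → ¬ p ∣ 2 * j + 1 → tA p Ns s K (2 * j + 1) C = true)
    (hm : ¬ 2 ∣ m) (hpm : ¬ p ∣ m) (hb : p * m < 165375) : ¬ GhoOdd p m := by
  obtain ⟨j, hj⟩ : ∃ j, m = 2 * j + 1 := by
    rcases Nat.even_or_odd' m with ⟨j, h | h⟩
    · exact absurd (Dvd.intro j h.symm) hm
    · exact ⟨j, h⟩
  refine tA_sound p Ns s K C m hp hm ?_ ?_ hK ?_ ?_
  · intro N h1 h2 h3
    rw [← List.contains_iff_mem]
    refine hNs N ?_ h1 (Nat.odd_iff.1 h2) h3
    have := Nat.le_of_dvd (by have := hp.two_le; omega) h1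
    have := hp.two_le
    omega
  · exact lt_of_mul_lt_mul_left (hb.trans_le hs) (Nat.zero_le p)
  · exact lt_of_mul_lt_mul_left (hb.trans_le hC) (Nat.zero_le p)
  · rw [hj]
    refine h j ?_ (by rw [← hj]; exact hpm)
    have : m < 2 * L + 1 := lt_of_mul_lt_mul_left (hb.trans_le hL) (Nat.zero_le p)
    omega

theorem no_N (p m : ℕ) (h : ∀ N, N < p → N ∣ p - 1 → N % 2 = 1 → 5 ≤ N → False) (hp : 1 < p) :
    ¬ GhoOdd p m := by
  rintro ⟨N, A, h1, h2, h3, -⟩
  have := Nat.le_of_dvd (by omega) h3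
  exact h N (by omega) h3 (Nat.odd_iff.1 h1) h2

theorem l11 (m : ℕ) (hm : ¬ 2 ∣ m) (hpm : ¬ 11 ∣ m) (hb : 11 * m < 165375) : ¬ GhoOdd 11 m :=
  one_prime 11 [5] 122 61 52 7517 m (by norm_num) (by decide) (by norm_num) (by norm_num)
    (by norm_num) (by norm_num) (fun j hj h => by
      rcases Nat.lt_or_ge j 1500 with h1 | h1
      · exact okI_spec _ _ _ _ _ 0 1500 j t1 (by omega) (by omega) h
      rcases Nat.lt_or_ge j 3000 with h2 | h2
      · exact okI_spec _ _ _ _ _ 1500 1500 j t2 (by omega) (by omega) h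
      rcases Nat.lt_or_ge j 4500 with h3 | h3
      · exact okI_spec _ _ _ _ _ 3000 1500 j t3 (by omega) (by omega) h
      rcases Nat.lt_or_ge j 6000 with h4 | h4
      · exact okI_spec _ _ _ _ _ 4500 1500 j t4 (by omega) (by omega) h
      exact okI_spec _ _ _ _ _ 6000 1517 j t5 (by omega) (by omega) h) hm hpm hb

theorem l19 (m : ℕ) (hm : ¬ 2 ∣ m) (hpm : ¬ 19 ∣ m) (hb : 19 * m < 165375) : ¬ GhoOdd 19 m :=
  one_prime 19 [9] 93 47 11 4352 m (by norm_num) (by decide) (by norm_num) (by norm_num)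
    (by norm_num) (by norm_num)
    (fun j hj h => okI_spec _ _ _ _ _ 0 4352 j u19 (by omega) (by omega) h) hm hpm hb

theorem l23 (m : ℕ) (hm : ¬ 2 ∣ m) (hpm : ¬ 23 ∣ m) (hb : 23 * m < 165375) : ¬ GhoOdd 23 m :=
  one_prime 23 [11] 84 42 6 3595 m (by norm_num) (by decide) (by norm_num) (by norm_num)
    (by norm_num) (by norm_num)
    (fun j hj h => okI_spec _ _ _ _ _ 0 3595 j u23 (by omega) (by omega) h) hm hpm hb

theorem l29 (m : ℕ) (hm : ¬ 2 ∣ m) (hpm : ¬ 29 ∣ m) (hb : 29 * m < 165375) : ¬ GhoOdd 29 m :=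
  one_prime 29 [7] 75 38 3 2852 m (by norm_num) (by decide) (by norm_num) (by norm_num)
    (by norm_num) (by norm_num)
    (fun j hj h => okI_spec _ _ _ _ _ 0 2852 j u29 (by omega) (by omega) h) hm hpm hb

theorem l31 (m : ℕ) (hm : ¬ 2 ∣ m) (hpm : ¬ 31 ∣ m) (hb : 31 * m < 165375) : ¬ GhoOdd 31 m :=
  one_prime 31 [5, 15] 73 37 3 2668 m (by norm_num) (by decide) (by norm_num) (by norm_num)
    (by norm_num) (by norm_num)
    (fun j hj h => okI_spec _ _ _ _ _ 0 2668 j u31 (by omega) (by omega) h) hm hpm hb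

theorem l37 (m : ℕ) (hm : ¬ 2 ∣ m) (hpm : ¬ 37 ∣ m) (hb : 37 * m < 165375) : ¬ GhoOdd 37 m :=
  one_prime 37 [9] 66 33 2 2235 m (by norm_num) (by decide) (by norm_num) (by norm_num)
    (by norm_num) (by norm_num)
    (fun j hj h => okI_spec _ _ _ _ _ 0 2235 j u37 (by omega) (by omega) h) hm hpm hb

theorem l41 (m : ℕ) (hm : ¬ 2 ∣ m) (hpm : ¬ 41 ∣ m) (hb : 41 * m < 165375) : ¬ GhoOdd 41 m :=
  one_prime 41 [5] 63 32 1 2017 m (by norm_num) (by decide) (by norm_num) (by norm_num)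
    (by norm_num) (by norm_num)
    (fun j hj h => okI_spec _ _ _ _ _ 0 2017 j u41 (by omega) (by omega) h) hm hpm hb

theorem l43 (m : ℕ) (hm : ¬ 2 ∣ m) (hpm : ¬ 43 ∣ m) (hb : 43 * m < 165375) : ¬ GhoOdd 43 m :=
  one_prime 43 [7, 21] 62 31 1 1923 m (by norm_num) (by decide) (by norm_num) (by norm_num)
    (by norm_num) (by norm_num)
    (fun j hj h => okI_spec _ _ _ _ _ 0 1923 j u43 (by omega) (by omega) h) hm hpm hb

theorem l47 (m : ℕ) (hm : ¬ 2 ∣ m) (hpm : ¬ 47 ∣ m) (hb : 47 * m < 165375) : ¬ GhoOdd 47 m :=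
  one_prime 47 [23] 59 30 1 1760 m (by norm_num) (by decide) (by norm_num) (by norm_num)
    (by norm_num) (by norm_num)
    (fun j hj h => okI_spec _ _ _ _ _ 0 1760 j u47 (by omega) (by omega) h) hm hpm hb

theorem l53 (m : ℕ) (hm : ¬ 2 ∣ m) (hpm : ¬ 53 ∣ m) (hb : 53 * m < 165375) : ¬ GhoOdd 53 m :=
  one_prime 53 [13] 55 28 1 1561 m (by norm_num) (by decide) (by norm_num) (by norm_num)
    (by norm_num) (by norm_num)
    (fun j hj h => okI_spec _ _ _ _ _ 0 1561 j u53 (by omega) (by omega) h) hm hpm hb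

/-- **No ghost primes below `165375`**, odd dimension. -/
theorem smallOdd (p m : ℕ) (hp : p.Prime) (hm : ¬ 2 ∣ m) (hpm : ¬ p ∣ m)
    (hb : p * m < 165375) : ¬ GhoOdd p m := by
  intro hG
  have h55 : p < 55 := by
    obtain ⟨N, A, -, -, -, hAm, hA, -⟩ := hG
    by_contra h
    have hm0 : 0 < m := by
      rcases Nat.eq_zero_or_pos m with rfl | h
      · exact absurd (dvd_zero 2) hm
      · exact h
    have h1 := Nat.le_of_dvd hm0 hAm
    have h2 : 56 ^ 2 ≤ (p + 1) ^ 2 := Nat.pow_le_pow_left (by omega) 2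
    have h3 : 55 * 56 ^ 2 ≤ p * m := Nat.mul_le_mul (by omega) (by omega)
    norm_num at h3
    omega
  revert hG
  have hp1 := hp.one_lt
  interval_cases p
  all_goals first
    | (exfalso; revert hp; norm_num; done)
    | exact no_N _ m (by decide) (by norm_num)
    | exact l11 m hm hpm hb
    | exact l19 m hm hpm hb
    | exact l23 m hm hpm hb
    | exact l29 m hm hpm hb
    | exact l31 m hm hpm hb
    | exact l37 m hm hpm hb
    | exact l41 m hm hpm hb
    | exact l43 m hm hpm hb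
    | exact l47 m hm hpm hb
    | exact l53 m hm hpm hb

end Pool.Agent.Helper94.P2.OD
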