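import Pool.Agent.Helper94.P2.Arith2
import Pool.Agent.Helper94.P2.OddSmall
import Pool.Agent.Helper79.AL.OddT
import Pool.Agent.Helper79.P2.TwoAll
import Pool.Agent.Helper89.P2.K2

/-! # MP_2b6189_al: all odd dimensions below `165375` -/

set_option autoImplicit false

namespace Pool.Agent.Helper94.P2

open Pool.Agent.Helper94.YF Pool.Agent.Helper94.YG
open Pool.Agent.Helper89.OC (TanSet)

variable {I : Type} [Fintype I] [DecidableEq I]

/-- **Theorem.**  All odd dimensions `1 < n < 165375`. -/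
theorem belowOdd (Z : CentreData I) (h1 : 1 < Z.n) (hodd : Odd Z.n) (h2 : Z.n < 165375) :
    ∃ D : I → Prop, TanSet Z D := by
  have h2n : ¬ 2 ∣ Z.n := by
    intro h
    exact (Nat.not_even_iff_odd.2 hodd) (even_iff_two_dvd.2 h)
  rcases arithOdd Z.n h1 h2 h2n with ⟨p, hp, hpn, hpp⟩ | ⟨c, hc⟩ |
    ⟨p, q, k, m, hp, hp2, -, hk, hn, hpm, hm⟩ |
    ⟨p, q, r, m, hp, hq, hr, hn, hpm, hqp, hrp, -, hm, h3, h4, h5⟩
  · by_contra hT
    obtain ⟨m, hm⟩ := hpn
    have hpm : ¬ p ∣ m := by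
      rintro ⟨c, rfl⟩
      exact hpp ⟨c, by rw [hm, mul_assoc]⟩
    obtain ⟨N, A, a1, a2, a3, a4, a5, a6, a7, -⟩ :=
      Pool.Agent.Helper79.AL.exactPrimeT I Z hodd p m hp hm hpm hT
    have h2m : ¬ 2 ∣ m := fun h => h2n (by rw [hm]; exact h.mul_left p)
    exact OD.smallOdd p m hp h2m hpm (by rw [← hm]; exact h2) ⟨N, A, a1, a2, a3, a4, a5, a6, a7⟩
  · exact absurd (by rw [hc]; exact dvd_pow_self 2 (Nat.succ_ne_zero c)) h2n
  · exact Pool.Agent.Helper79.P2.two Z p k m q hp hp2 hk hn hpm hm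
  · exact Pool.Agent.Helper89.P2.k2 Z p m q r hp hq hr hn hpm hm hqp hrp h3 h4 h5

end Pool.Agent.Helper94.P2
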