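import Pool.Agent.Helper52.PN.Sound

/-! # MP_2b6189_al: odd dimensions, the verified search, program and soundness -/

set_option autoImplicit false

namespace Pool.Agent.Helper94.P2.OD

open Pool.Agent.Helper89.PQ0 (Tup)
open Pool.Agent.Helper52.PN.Sr

/-- soundness of the search for one pair `N`, `A` -/
theorem srch_sound (p m N A : ℕ) (D : List ℕ) (hp : p.Prime) (hN0 : 0 < N)
    (hD : ∀ x, x ∣ m → x ∈ D) (hS : srch p ((p - 1) / N) A D = true) : ¬ Tup p m N A := by
  rintro ⟨g, y, e, k, w, d, hpg, hsq, hdim, he1, hem, heA, heN, hel, hij⟩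
  have hp0 : 0 < p := hp.pos
  have hg0 : 0 < g := by
    rcases Nat.eq_zero_or_pos g with rfl | h1
    · rw [mul_zero] at hpg
      rw [hpg] at hp
      exact absurd hp (by norm_num)
    · exact h1
  have hgp : g ≤ p := by
    rw [hpg]
    nlinarith
  have hgN : (p - 1) / N = g := by
    rw [hpg]
    have : 1 + N * g - 1 = N * g := by omega
    rw [this]
    exact Nat.mul_div_cancel_left g hN0
  rw [hgN] at hS
  unfold srch at hS
  have hQ0 : 0 ≤ ∑ i, w i ^ 2 := Finset.sum_nonneg fun i _ => sq_nonneg _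
  have hgpos : (0 : ℤ) < g := by exact_mod_cast hg0
  have hpgZ : (p : ℤ) = 1 + N * g := by exact_mod_cast hpg
  have hyge : (p : ℤ) ∣ y + ((g * e : ℕ) : ℤ) := by
    obtain ⟨c, hc1⟩ := heN
    refine ⟨g * c + y, ?_⟩
    push_cast
    linear_combination (g : ℤ) * hc1 - y * hpgZ
  have hx := List.all_eq_true.1 hS (toE y e) (toE_mem_specs p g A D e y (∑ i, w i ^ 2) hp0
    (hD e hem) he1 hgp hg0 hQ0 hsq hyge heA)
  have hyab : y.natAbs * y.natAbs ≤ p - g := by
    have : ((y.natAbs * y.natAbs : ℕ) : ℤ) ≤ ((p - g : ℕ) : ℤ) := by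
      rw [natAbs_mul_self', Nat.cast_sub hgp]
      nlinarith [mul_nonneg hgpos.le hQ0]
    exact_mod_cast this
  have hwle : ∀ i, w i ^ 2 ≤ (((p - g) / g : ℕ) : ℤ) := by
    intro i
    have h1 : w i ^ 2 ≤ ∑ j, w j ^ 2 :=
      Finset.single_le_sum (f := fun j => w j ^ 2) (fun j _ => sq_nonneg (w j))
        (Finset.mem_univ i)
    have h2 : (w i).natAbs * (w i).natAbs ≤ (p - g) / g := by
      rw [Nat.le_div_iff_mul_le hg0]
      have : (((w i).natAbs * (w i).natAbs * g : ℕ) : ℤ) ≤ ((p - g : ℕ) : ℤ) := by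
        rw [Nat.cast_mul, natAbs_mul_self', Nat.cast_sub hgp]
        nlinarith [mul_le_mul_of_nonneg_left h1 hgpos.le, sq_nonneg y]
      exact_mod_cast this
    have h3 : (((w i).natAbs * (w i).natAbs : ℕ) : ℤ) ≤ (((p - g) / g : ℕ) : ℤ) := by
      exact_mod_cast h2
    rwa [natAbs_mul_self'] at h3
  have hBp : (p - g) / g < p := by
    have := Nat.div_le_self (p - g) g
    omega
  set M : List E := List.ofFn fun i => toE (w i) (d i) with hM
  have hMmem : ∀ x ∈ M, x ∈ (regs p ((p - g) / g) A D).filter (cp p (toE y e)) := by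
    intro x hx
    rw [hM, List.mem_ofFn] at hx
    obtain ⟨i, rfl⟩ := hx
    obtain ⟨h1, h2, h3, h4, h5, h6⟩ := hel i
    refine List.mem_filter.2 ⟨toE_mem p _ A D (d i) (w i) hp0 (hD _ h3) h2 h5 (hwle i) h4 hBp,
      cp_iff.2 ?_⟩
    unfold Cmp toE
    rw [Nat.gcd_comm]
    exact h6
  have hMP : M.Pairwise (Cmp p) := by
    rw [hM, List.pairwise_ofFn]
    intro i j h1
    unfold Cmp toE
    exact hij i j (ne_of_lt h1)
  have hM0 : ∀ x ∈ M, x.2.1 ≠ 0 := by
    intro x hx
    rw [hM, List.mem_ofFn] at hx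
    obtain ⟨i, rfl⟩ := hx
    unfold toE
    exact Int.natAbs_ne_zero.2 (hel i).1
  have hMsq : (M.map fun x => x.2.1 * x.2.1).sum = (p - g - y.natAbs * y.natAbs) / g := by
    have e1 : M.map (fun x => x.2.1 * x.2.1) = List.ofFn fun i => (w i).natAbs * (w i).natAbs := by
      rw [hM, List.map_ofFn]
      rfl
    rw [e1, List.sum_ofFn]
    symm
    apply Nat.div_eq_of_eq_mul_right hg0
    have : ((p - g - y.natAbs * y.natAbs : ℕ) : ℤ) =
        ((g * ∑ i, (w i).natAbs * (w i).natAbs : ℕ) : ℤ) := by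
      rw [Nat.cast_sub hyab, Nat.cast_sub hgp, natAbs_mul_self', Nat.cast_mul, Nat.cast_sum]
      have e2 : ∑ i, (((w i).natAbs * (w i).natAbs : ℕ) : ℤ) = ∑ i, w i ^ 2 :=
        Finset.sum_congr rfl fun i _ => natAbs_mul_self' (w i)
      rw [e2]
      linarith
    exact_mod_cast this
  have hMval : (M.map val).sum = ∑ i, w i * (d i : ℤ) := by
    have e1 : M.map val = List.ofFn fun i => w i * (d i : ℤ) := by
      rw [hM, List.map_ofFn]
      congr 1
      funext i
      exact val_toE (w i) (d i)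
    rw [e1, List.sum_ofFn]
  by_cases hy : 0 < y
  · have hxx : (toE y e).1 = true := by simp [toE, hy]
    unfold tst at hx
    rw [hxx] at hx
    refine nx_sound p 60 _ _ _ _ _ hx ?_ M hMmem hMP hM0 hMsq ?_
    · have : ((((toE y e).2.1 * (toE y e).2.2 : ℕ) : ℤ) - ((0 : ℕ) : ℤ)) = y * e := by
        simp only [toE]
        push_cast
        rw [abs_of_pos hy]
        ring
      rw [this]
      exact dvd_mul_left _ _
    · rw [hMval, ← hdim]
      simp only [toE]
      push_cast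
      rw [abs_of_pos hy]
      ring
  · have hxx : (toE y e).1 = false := by simp [toE, hy]
    unfold tst at hx
    rw [hxx] at hx
    have hy' : y ≤ 0 := by omega
    refine nx_sound p 60 _ _ _ _ _ hx ?_ M hMmem hMP hM0 hMsq ?_
    · have : (((0 : ℕ) : ℤ) - (((toE y e).2.1 * (toE y e).2.2 : ℕ) : ℤ)) = y * e := by
        simp only [toE]
        push_cast
        rw [abs_of_nonpos hy']
        ring
      rw [this]
      exact dvd_mul_left _ _
    · rw [hMval, ← hdim]
      simp only [toE]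
      push_cast
      rw [abs_of_nonpos hy']
      ring

/-- odd divisors of `m` (those below `2 k`, and the complementary ones which exceed `s`) -/
def divo (m s : ℕ) : ℕ → List ℕ
  | 0 => []
  | k + 1 =>
    match Nat.beq (m % (2 * k + 1)) 0, Nat.ble (s + 1) (m / (2 * k + 1)) with
    | true, true => (2 * k + 1) :: (m / (2 * k + 1)) :: divo m s k
    | true, false => (2 * k + 1) :: divo m s k
    | false, _ => divo m s k

theorem mem_divo_aux (m s k j : ℕ) (hd : 2 * j + 1 ∣ m) (hk : j < k) :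
    2 * j + 1 ∈ divo m s k ∧ (s < m / (2 * j + 1) → m / (2 * j + 1) ∈ divo m s k) := by
  induction k with
  | zero => omega
  | succ k ih =>
    rw [divo]
    rcases Nat.lt_or_ge j k with h | h
    · obtain ⟨i1, i2⟩ := ih h
      rcases Nat.beq (m % (2 * k + 1)) 0 with _ | _ <;>
        rcases Nat.ble (s + 1) (m / (2 * k + 1)) with _ | _
      · exact ⟨i1, i2⟩
      · exact ⟨i1, i2⟩
      · exact ⟨List.mem_cons_of_mem _ i1, fun h => List.mem_cons_of_mem _ (i2 h)⟩
      · exact ⟨List.mem_cons_of_mem _ (List.mem_cons_of_mem _ i1),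
          fun h => List.mem_cons_of_mem _ (List.mem_cons_of_mem _ (i2 h))⟩
    · obtain rfl : j = k := by omega
      have e1 : Nat.beq (m % (2 * j + 1)) 0 = true := by
        rw [Nat.mod_eq_zero_of_dvd hd]; rfl
      rcases hb : Nat.ble (s + 1) (m / (2 * j + 1)) with _ | _
      · rw [e1]
        refine ⟨List.mem_cons_self .., fun h1 => ?_⟩
        exfalso
        have : Nat.ble (s + 1) (m / (2 * j + 1)) = true := by
          rw [Nat.ble_eq]
          exact h1
        rw [this] at hb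
        cases hb
      · rw [e1]
        exact ⟨List.mem_cons_self .., fun _ => List.mem_cons_of_mem _ (List.mem_cons_self ..)⟩

theorem mem_divo (m s k d : ℕ) (hd : d ∣ m) (hm : ¬ 2 ∣ m) (hs : m < (s + 1) ^ 2)
    (hk : s ≤ 2 * k) : d ∈ divo m s k := by
  have hm0 : 0 < m := by
    rcases Nat.eq_zero_or_pos m with rfl | h
    · exact absurd (dvd_zero 2) hm
    · exact h
  have hoddof : ∀ x : ℕ, x ∣ m → ∃ j, x = 2 * j + 1 := by
    intro x hx
    rcases Nat.even_or_odd' x with ⟨j, h | h⟩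
    · exact absurd ((Dvd.intro j h.symm).trans hx) hm
    · exact ⟨j, h⟩
  obtain ⟨c, hc⟩ := hd
  obtain ⟨j, hj⟩ := hoddof d ⟨c, hc⟩
  obtain ⟨i, hi⟩ := hoddof c ⟨d, by rw [hc, mul_comm]⟩
  rcases Nat.lt_or_ge s d with h | h
  · have h1 : c ≤ s := by
      by_contra h2
      have h3 : (s + 1) * (s + 1) ≤ d * c := Nat.mul_le_mul (by omega) (by omega)
      rw [← hc] at h3
      nlinarith
    have h2 := (mem_divo_aux m s k i (by rw [← hi]; exact ⟨d, by rw [hc, mul_comm]⟩)
      (by omega)).2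
    rw [← hi] at h2
    have h3 : m / c = d := by
      rw [hc]
      exact Nat.mul_div_cancel _ (by omega)
    rw [h3] at h2
    exact h2 h
  · rw [hj]
    exact (mem_divo_aux m s k j (by rw [← hj]; exact ⟨c, hc⟩) (by omega)).1

/-- the congruence -/
def cg (p N A : ℕ) : Bool :=
  Nat.beq ((A + (p - N)) % p) 0 || Nat.beq ((A + N) % p) 0

/-- the test of the divisors `m / (2 k + 1)` -/
def tA (p : ℕ) (Ns : List ℕ) (s K m : ℕ) : ℕ → Bool
  | 0 => true
  | k + 1 => (!(Nat.beq (m % (2 * k + 1)) 0) ||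
      (Nat.ble (m / (2 * k + 1)) ((p + 1) * (p + 1)) ||
        Ns.all (fun N => !(cg p N (m / (2 * k + 1))) ||
          srch p ((p - 1) / N) (m / (2 * k + 1)) (divo m s K)))) && tA p Ns s K m k

/-- the numbers of a ghost prime, odd dimension -/
def GhoOdd (p m : ℕ) : Prop :=
  ∃ N A : ℕ, Odd N ∧ 5 ≤ N ∧ N ∣ p - 1 ∧ A ∣ m ∧ (p + 1) ^ 2 < A ∧
    ((p : ℤ) ∣ A - N ∨ (p : ℤ) ∣ A + N) ∧ Tup p m N A

theorem cg_of {p N A : ℕ} (hN : N ≤ p) (hc : (p : ℤ) ∣ A - N ∨ (p : ℤ) ∣ A + N) :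
    cg p N A = true := by
  unfold cg
  rw [Bool.or_eq_true, Nat.beq_eq, Nat.beq_eq]
  rcases hc with h2 | h2
  · left
    apply Nat.mod_eq_zero_of_dvd
    have : (p : ℤ) ∣ ((A + (p - N) : ℕ) : ℤ) := by
      have e2 : ((A + (p - N) : ℕ) : ℤ) = (A - N : ℤ) + p := by push_cast [hN]; ring
      rw [e2]
      exact dvd_add h2 dvd_rfl
    exact_mod_cast this
  · right
    apply Nat.mod_eq_zero_of_dvd
    exact_mod_cast h2

theorem tA_mem (p : ℕ) (Ns : List ℕ) (s K m C k : ℕ) (h : tA p Ns s K m C = true) (hk : k < C) :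
    (!(Nat.beq (m % (2 * k + 1)) 0) ||
      (Nat.ble (m / (2 * k + 1)) ((p + 1) * (p + 1)) ||
        Ns.all (fun N => !(cg p N (m / (2 * k + 1))) ||
          srch p ((p - 1) / N) (m / (2 * k + 1)) (divo m s K)))) = true := by
  induction C with
  | zero => omega
  | succ C ih =>
    rw [tA, Bool.and_eq_true] at h
    rcases Nat.lt_or_ge k C with h1 | h1
    · exact ih h.2 h1
    · obtain rfl : k = C := by omega
      exact h.1

/-- soundness of the test of one number -/
theorem tA_sound (p : ℕ) (Ns : List ℕ) (s K C m : ℕ) (hp : p.Prime) (hm : ¬ 2 ∣ m)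
    (hNs : ∀ N, N ∣ p - 1 → Odd N → 5 ≤ N → N ∈ Ns) (hs : m < (s + 1) ^ 2) (hK : s ≤ 2 * K)
    (hC : m < (2 * C + 1) * ((p + 1) ^ 2)) (h : tA p Ns s K m C = true) : ¬ GhoOdd p m := by
  rintro ⟨N, A, hNodd, hN5, hNp, hAm, hA, hc, hT⟩
  have hNle : N ≤ p := (Nat.le_of_dvd (by have := hp.two_le; omega) hNp).trans (Nat.sub_le _ _)
  obtain ⟨c, hmc⟩ := hAm
  have hcodd : ∃ k, c = 2 * k + 1 := by
    rcases Nat.even_or_odd' c with ⟨j, h | h⟩
    · exact absurd (by rw [hmc, h]; exact ⟨A * j, by ring⟩) hm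
    · exact ⟨j, h⟩
  obtain ⟨k, hk⟩ := hcodd
  have hkC : k < C := by
    by_contra h1
    have h2 : 2 * C + 1 ≤ c := by omega
    have h3 : (2 * C + 1) * ((p + 1) ^ 2) ≤ c * A := Nat.mul_le_mul h2 hA.le
    rw [hmc, mul_comm A c] at hC
    omega
  have hAc : m / (2 * k + 1) = A := by
    rw [hmc, hk]
    exact Nat.mul_div_cancel _ (by omega)
  have h1 := tA_mem p Ns s K m C k h hkC
  rw [hAc, Bool.or_eq_true, Bool.or_eq_true] at h1
  have h2 : ¬ (!(Nat.beq (m % (2 * k + 1)) 0)) = true := by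
    have : 2 * k + 1 ∣ m := ⟨A, by rw [hmc, hk, mul_comm]⟩
    rw [Nat.mod_eq_zero_of_dvd this]
    decide
  have h3 : ¬ Nat.ble A ((p + 1) * (p + 1)) = true := by
    rw [Nat.ble_eq, ← sq]
    exact not_le.2 hA
  have h4 := List.all_eq_true.1 ((h1.resolve_left h2).resolve_left h3) N (hNs N hNp hNodd hN5)
  rw [Bool.or_eq_true, cg_of hNle hc] at h4
  have h5 := h4.resolve_left (by decide)
  exact srch_sound p m N A _ hp (by omega)
    (fun x hx => mem_divo m s K x hx hm hs hK) h5 hT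

/-- the test of an interval of odd numbers -/
def okI (p : ℕ) (Ns : List ℕ) (s K C a : ℕ) : ℕ → Bool
  | 0 => true
  | k + 1 => (Nat.beq ((2 * (a + k) + 1) % p) 0 || tA p Ns s K (2 * (a + k) + 1) C) &&
      okI p Ns s K C a k

theorem okI_spec (p : ℕ) (Ns : List ℕ) (s K C a k j : ℕ) (h : okI p Ns s K C a k = true)
    (h1 : a ≤ j) (h2 : j < a + k) (hp : ¬ p ∣ 2 * j + 1) :
    tA p Ns s K (2 * j + 1) C = true := by
  induction k with
  | zero => omega
  | succ k ih =>
    rw [okI, Bool.and_eq_true, Bool.or_eq_true, Nat.beq_eq, ← Nat.dvd_iff_mod_eq_zero] at h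
    rcases Nat.lt_or_ge j (a + k) with h3 | h3
    · exact ih h.2 h3
    · obtain rfl : j = a + k := by omega
      exact h.1.resolve_left hp

end Pool.Agent.Helper94.P2.OD
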